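import Pool.Agent.FY.LLN2

/-! # Laplace transform of the last passage time of one block -/

open MeasureTheory ProbabilityTheory

namespace Pool.Agent.FX

/-- abstract block estimate: truncated Laplace transform, by dyadic induction -/
private lemma Blk_trunc {Ω : Type} [MeasurableSpace Ω] {μ : Measure Ω} {T : Ω → ℝ} {l c C : ℝ}
    (hT : Measurable T) (h0 : ∀ᵐ ω ∂μ, 0 ≤ T ω) (hl : 0 ≤ l) (hc : 0 < c) (hC : 1 ≤ C)
    (H : ∀ δ : ℝ, 0 < δ → δ ≤ 1 / 2 →
      μ {ω | T ω < (4 - 8 * δ) * l} ≤ ENNReal.ofReal (C * Real.exp (-(c * δ ^ 4 * l)))) (n : ℕ) :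
    ∀ δ : ℝ, 0 < δ → δ ≤ 1 / 2 → 1 / 4 < 2 ^ n * δ → 1 ≤ c * δ ^ 4 * l →
    ∀ θ : ℝ, 0 < θ → θ ≤ c / 32 * δ ^ 3 →
      ∫⁻ ω in {ω | T ω < (4 - 8 * δ) * l}, ENNReal.ofReal (Real.exp (-(θ * T ω))) ∂μ ≤
        ENNReal.ofReal (Real.exp (-(4 * θ * l)) * (2 * C * Real.exp (-(c * δ ^ 4 * l / 2)))) := by
  have hbase : ∀ δ : ℝ, 0 < δ → δ ≤ 1 / 2 → 1 / 4 < δ → ∀ θ : ℝ, 0 < θ → θ ≤ c / 32 * δ ^ 3 →
      ∫⁻ ω in {ω | T ω < (4 - 8 * δ) * l}, ENNReal.ofReal (Real.exp (-(θ * T ω))) ∂μ ≤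
        ENNReal.ofReal (Real.exp (-(4 * θ * l)) * (2 * C * Real.exp (-(c * δ ^ 4 * l / 2)))) := by
    intro δ hδ hδ1 hδ2 θ hθ hθ1
    have h1 : ∫⁻ ω in {ω | T ω < (4 - 8 * δ) * l}, ENNReal.ofReal (Real.exp (-(θ * T ω))) ∂μ ≤
        ∫⁻ _ in {ω | T ω < (4 - 8 * δ) * l}, 1 ∂μ := by
      refine lintegral_mono_ae (ae_restrict_of_ae ?_)
      filter_upwards [h0] with ω hω
      rw [← ENNReal.ofReal_one]
      refine ENNReal.ofReal_le_ofReal (Real.exp_le_one_iff.2 ?_)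
      have := mul_nonneg hθ.le hω
      linarith
    rw [setLIntegral_one] at h1
    refine (h1.trans (H δ hδ hδ1)).trans (ENNReal.ofReal_le_ofReal ?_)
    have h2 : 4 * θ * l ≤ c * δ ^ 4 * l / 2 := by
      have h3 : 4 * θ ≤ c * δ ^ 4 / 2 := by
        have h4 : c / 32 * δ ^ 3 ≤ c * δ ^ 4 / 8 := by
          have h5 : 0 < c * δ ^ 3 := by positivity
          nlinarith
        linarith
      nlinarith
    have h3 : Real.exp (-(c * δ ^ 4 * l)) ≤
        Real.exp (-(4 * θ * l)) * Real.exp (-(c * δ ^ 4 * l / 2)) := by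
      rw [← Real.exp_add]
      exact Real.exp_le_exp.2 (by linarith)
    have h4 := Real.exp_pos (-(c * δ ^ 4 * l))
    nlinarith
  induction n with
  | zero =>
    intro δ hδ hδ1 hδ2 _ θ hθ hθ1
    exact hbase δ hδ hδ1 (by simpa using hδ2) θ hθ hθ1
  | succ n ih =>
    intro δ hδ hδ1 hδ2 hx θ hθ hθ1
    rcases lt_or_ge (1 / 4) δ with hd | hd
    · exact hbase δ hδ hδ1 hd θ hθ hθ1
    have hcd : 0 < c * δ ^ 3 := by positivity
    have e1 := ih (2 * δ) (by positivity) (by linarith) (by rw [pow_succ] at hδ2; linarith)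
      (by nlinarith [show c * (2 * δ) ^ 4 * l = 16 * (c * δ ^ 4 * l) by ring]) θ hθ
      (by nlinarith [show c / 32 * (2 * δ) ^ 3 = 8 * (c / 32 * δ ^ 3) by ring])
    have hsub : {ω | T ω < (4 - 8 * δ) * l} ⊆
        {ω | (4 - 8 * (2 * δ)) * l ≤ T ω ∧ T ω < (4 - 8 * δ) * l} ∪
          {ω | T ω < (4 - 8 * (2 * δ)) * l} := by
      intro ω hω
      rcases lt_or_ge (T ω) ((4 - 8 * (2 * δ)) * l) with h | h
      · exact Or.inr h
      · exact Or.inl ⟨h, hω⟩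
    have hm : MeasurableSet {ω | (4 - 8 * (2 * δ)) * l ≤ T ω ∧ T ω < (4 - 8 * δ) * l} :=
      (measurableSet_le measurable_const hT).inter (measurableSet_lt hT measurable_const)
    have e2 : ∫⁻ ω in {ω | (4 - 8 * (2 * δ)) * l ≤ T ω ∧ T ω < (4 - 8 * δ) * l},
        ENNReal.ofReal (Real.exp (-(θ * T ω))) ∂μ ≤
        ENNReal.ofReal (Real.exp (-(θ * ((4 - 8 * (2 * δ)) * l))) *
          (C * Real.exp (-(c * δ ^ 4 * l)))) := by
      have h1 : ∫⁻ ω in {ω | (4 - 8 * (2 * δ)) * l ≤ T ω ∧ T ω < (4 - 8 * δ) * l},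
          ENNReal.ofReal (Real.exp (-(θ * T ω))) ∂μ ≤
          ∫⁻ _ in {ω | (4 - 8 * (2 * δ)) * l ≤ T ω ∧ T ω < (4 - 8 * δ) * l},
            ENNReal.ofReal (Real.exp (-(θ * ((4 - 8 * (2 * δ)) * l)))) ∂μ := by
        refine setLIntegral_mono' hm fun ω hω => ENNReal.ofReal_le_ofReal (Real.exp_le_exp.2 ?_)
        exact neg_le_neg (mul_le_mul_of_nonneg_left hω.1 hθ.le)
      rw [setLIntegral_const] at h1
      refine h1.trans ?_
      rw [ENNReal.ofReal_mul (Real.exp_pos _).le]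
      exact mul_le_mul_right ((measure_mono fun ω hω => hω.2).trans (H δ hδ hδ1)) _
    have e3 := (lintegral_mono_set hsub).trans
      ((lintegral_union_le (μ := μ) (fun ω => ENNReal.ofReal (Real.exp (-(θ * T ω))))
        {ω | (4 - 8 * (2 * δ)) * l ≤ T ω ∧ T ω < (4 - 8 * δ) * l}
        {ω | T ω < (4 - 8 * (2 * δ)) * l}).trans (add_le_add e2 e1))
    rw [← ENNReal.ofReal_add (by positivity) (by positivity)] at e3
    refine e3.trans (ENNReal.ofReal_le_ofReal ?_)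
    set x : ℝ := c * δ ^ 4 * l with hxd
    have h16 : c * (2 * δ) ^ 4 * l = 16 * x := by rw [hxd]; ring
    rw [h16]
    have hth : 16 * θ * δ * l ≤ x / 2 := by
      have h1 : 16 * θ * δ ≤ c * δ ^ 4 / 2 := by
        have := mul_le_mul_of_nonneg_right hθ1 hδ.le
        nlinarith
      have h2 := mul_le_mul_of_nonneg_right h1 hl
      rw [hxd]
      linarith
    have f1 : Real.exp (-(θ * ((4 - 8 * (2 * δ)) * l))) * Real.exp (-x) ≤
        Real.exp (-(4 * θ * l)) * Real.exp (-(x / 2)) := by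
      rw [← Real.exp_add, ← Real.exp_add]
      exact Real.exp_le_exp.2 (by nlinarith)
    have f2 : 2 * Real.exp (-(16 * x / 2)) ≤ Real.exp (-(x / 2)) := by
      have g1 : Real.exp (-(16 * x / 2)) = Real.exp (-(x / 2)) * Real.exp (-(15 * x / 2)) := by
        rw [← Real.exp_add]
        congr 1
        ring
      have g2 : Real.exp (-(15 * x / 2)) ≤ 1 / 2 := by
        have g3 : Real.exp (-(15 * x / 2)) * Real.exp (15 * x / 2) = 1 := by
          rw [← Real.exp_add, neg_add_cancel, Real.exp_zero]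
        have g4 := Real.add_one_le_exp (15 * x / 2)
        have g5 := Real.exp_pos (-(15 * x / 2))
        nlinarith
      have g6 := Real.exp_pos (-(x / 2))
      rw [g1]
      nlinarith
    have p1 := Real.exp_pos (-(4 * θ * l))
    have p2 := Real.exp_pos (-(x / 2))
    have q1 : Real.exp (-(θ * ((4 - 8 * (2 * δ)) * l))) * (C * Real.exp (-x)) ≤
        C * (Real.exp (-(4 * θ * l)) * Real.exp (-(x / 2))) := by
      have := mul_le_mul_of_nonneg_left f1 (zero_le_one.trans hC)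
      linarith
    have q2 : Real.exp (-(4 * θ * l)) * (2 * C * Real.exp (-(16 * x / 2))) ≤
        C * (Real.exp (-(4 * θ * l)) * Real.exp (-(x / 2))) := by
      have h1 := mul_le_mul_of_nonneg_left f2 (mul_nonneg (zero_le_one.trans hC) p1.le)
      linarith
    linarith

lemma blk : ∃ c A : ℝ, 0 < c ∧ 1 ≤ A ∧ ∀ δ : ℝ, 0 < δ → δ ≤ 1 / 2 → ∀ l : ℕ, A ≤ δ ^ 4 * l →
    ∀ θ : ℝ, 0 < θ → θ ≤ c * δ ^ 3 →
    ∀ (Ω : Type) [MeasurableSpace Ω] (μ : Measure Ω) (X : ℕ × ℕ → Ω → ℝ),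
      ExpFam μ X (fun _ => 1) →
      ∫⁻ ω, ENNReal.ofReal (Real.exp (-(θ * lpp (fun c => X c ω) (l - 1) (l - 1)))) ∂μ ≤
        ENNReal.ofReal (2 * Real.exp (-(θ * (4 - 8 * δ) * l))) := by
  obtain ⟨c, C, hc, hC, H⟩ := lln2
  refine ⟨c / 32, max 1 (max (1 / c) (4 * C / c)), by positivity, le_max_left _ _, ?_⟩
  intro δ hδ hδ1 l hl θ hθ hθ1 Ω _ μ X hX
  haveI := hX.prob
  have hl1 : 1 ≤ δ ^ 4 * l := (le_max_left _ _).trans hl
  have hl2 : 1 / c ≤ δ ^ 4 * l := ((le_max_left _ _).trans (le_max_right _ _)).trans hl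
  have hl3 : 4 * C / c ≤ δ ^ 4 * l := ((le_max_right _ _).trans (le_max_right _ _)).trans hl
  rw [div_le_iff₀ hc] at hl2 hl3
  have hlp : 1 ≤ l := by
    rcases Nat.eq_zero_or_pos l with h | h
    · rw [h] at hl1
      norm_num at hl1
    · exact h
  have hT : Measurable fun ω => lpp (fun c => X c ω) (l - 1) (l - 1) :=
    (measurable_lpp (l - 1) (l - 1)).comp (measurable_pi_lambda _ hX.meas)
  have h0 : ∀ᵐ ω ∂μ, 0 ≤ lpp (fun c => X c ω) (l - 1) (l - 1) :=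
    hX.nonneg.mono fun ω hω => lpp_nonneg hω _ _
  obtain ⟨n, hn⟩ := pow_unbounded_of_one_lt (1 / (4 * δ)) (one_lt_two (α := ℝ))
  have hn' : 1 / 4 < 2 ^ n * δ := by
    rw [div_lt_iff₀ (by positivity)] at hn
    linarith
  have hQ := Blk_trunc hT h0 (Nat.cast_nonneg l) hc hC
    (fun δ' h1 h2 => H δ' h1 h2 l hlp Ω μ X hX) n δ hδ hδ1 hn' (by linarith) θ hθ hθ1
  have hm : MeasurableSet {ω | (4 - 8 * δ) * l ≤ lpp (fun c => X c ω) (l - 1) (l - 1)} :=
    measurableSet_le measurable_const hT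
  have e2 : ∫⁻ ω in {ω | (4 - 8 * δ) * l ≤ lpp (fun c => X c ω) (l - 1) (l - 1)},
      ENNReal.ofReal (Real.exp (-(θ * lpp (fun c => X c ω) (l - 1) (l - 1)))) ∂μ ≤
      ENNReal.ofReal (Real.exp (-(θ * ((4 - 8 * δ) * l)))) := by
    have h1 : ∫⁻ ω in {ω | (4 - 8 * δ) * l ≤ lpp (fun c => X c ω) (l - 1) (l - 1)},
        ENNReal.ofReal (Real.exp (-(θ * lpp (fun c => X c ω) (l - 1) (l - 1)))) ∂μ ≤
        ∫⁻ _ in {ω | (4 - 8 * δ) * l ≤ lpp (fun c => X c ω) (l - 1) (l - 1)},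
          ENNReal.ofReal (Real.exp (-(θ * ((4 - 8 * δ) * l)))) ∂μ := by
      refine setLIntegral_mono' hm fun ω hω => ENNReal.ofReal_le_ofReal (Real.exp_le_exp.2 ?_)
      exact neg_le_neg (mul_le_mul_of_nonneg_left hω hθ.le)
    rw [setLIntegral_const] at h1
    exact h1.trans (mul_le_of_le_one_right' prob_le_one)
  have hcov : (Set.univ : Set Ω) ⊆
      {ω | (4 - 8 * δ) * l ≤ lpp (fun c => X c ω) (l - 1) (l - 1)} ∪
      {ω | lpp (fun c => X c ω) (l - 1) (l - 1) < (4 - 8 * δ) * l} := by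
    intro ω _
    rcases lt_or_ge (lpp (fun c => X c ω) (l - 1) (l - 1)) ((4 - 8 * δ) * l) with h | h
    · exact Or.inr h
    · exact Or.inl h
  have e3 := (lintegral_mono_set hcov).trans
    ((lintegral_union_le (μ := μ)
      (fun ω => ENNReal.ofReal (Real.exp (-(θ * lpp (fun c => X c ω) (l - 1) (l - 1)))))
      {ω | (4 - 8 * δ) * l ≤ lpp (fun c => X c ω) (l - 1) (l - 1)}
      {ω | lpp (fun c => X c ω) (l - 1) (l - 1) < (4 - 8 * δ) * l}).trans (add_le_add e2 hQ))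
  rw [Measure.restrict_univ, ← ENNReal.ofReal_add (by positivity) (by positivity)] at e3
  refine e3.trans (ENNReal.ofReal_le_ofReal ?_)
  set x : ℝ := c * δ ^ 4 * l with hxd
  have hx : 4 * C ≤ x := by rw [hxd]; linarith
  have f1 : 2 * C * Real.exp (-(x / 2)) ≤ 1 := by
    have g3 : Real.exp (-(x / 2)) * Real.exp (x / 2) = 1 := by
      rw [← Real.exp_add, neg_add_cancel, Real.exp_zero]
    have g4 := Real.add_one_le_exp (x / 2)
    have g5 := Real.exp_pos (-(x / 2))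
    nlinarith
  have f2 : Real.exp (-(4 * θ * l)) ≤ Real.exp (-(θ * (4 - 8 * δ) * l)) := by
    refine Real.exp_le_exp.2 (neg_le_neg ?_)
    have h1 : 0 ≤ θ * (8 * δ) * l := by positivity
    nlinarith
  have f3 := mul_le_mul_of_nonneg_left f1 (Real.exp_pos (-(4 * θ * l))).le
  have f4 : θ * ((4 - 8 * δ) * l) = θ * (4 - 8 * δ) * l := by ring
  rw [f4]
  linarith

end Pool.Agent.FX
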