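import Pool.Agent.FX.Fam

/-! # Chernoff bounds with explicit constants -/

open MeasureTheory ProbabilityTheory

namespace Pool.Agent.FX

variable {Ω : Type} [MeasurableSpace Ω] {μ : Measure Ω}

private lemma cher2_exp_up {t : ℝ} (h0 : 0 ≤ t) (h1 : t ≤ 1 / 2) :
    (1 - t)⁻¹ ≤ Real.exp (t + t ^ 2) := by
  have h2 : 0 < 1 - t := by linarith
  have h3 := Real.quadratic_le_exp_of_nonneg (x := t + t ^ 2) (by positivity)
  rw [inv_le_iff_one_le_mul₀ h2]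
  refine le_trans ?_ (mul_le_mul_of_nonneg_right h3 h2.le)
  have h4 : 0 ≤ 1 - t - t ^ 2 - t ^ 3 := by
    have h5 : t ^ 2 ≤ (1 / 2) ^ 2 := pow_le_pow_left₀ h0 h1 2
    have h6 : t ^ 3 ≤ (1 / 2) ^ 3 := pow_le_pow_left₀ h0 h1 3
    linarith
  have h7 : (1 + (t + t ^ 2) + (t + t ^ 2) ^ 2 / 2) * (1 - t) =
      1 + t ^ 2 / 2 * (1 - t - t ^ 2 - t ^ 3) := by ring
  rw [h7]
  have h8 : 0 ≤ t ^ 2 / 2 * (1 - t - t ^ 2 - t ^ 3) := mul_nonneg (by positivity) h4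
  linarith

private lemma cher2_exp_dn {t : ℝ} (h0 : 0 ≤ t) : Real.exp (t - t ^ 2 / 2) ≤ 1 + t := by
  have h1 := Real.le_log_one_add_of_nonneg h0
  have h2 : t - t ^ 2 / 2 ≤ 2 * t / (t + 2) := by
    rw [le_div_iff₀ (by linarith)]
    have h3 : (t - t ^ 2 / 2) * (t + 2) = 2 * t - t ^ 3 / 2 := by ring
    have h4 : 0 ≤ t ^ 3 := by positivity
    rw [h3]
    linarith
  rw [← Real.exp_log (by linarith : (0 : ℝ) < 1 + t)]
  exact Real.exp_le_exp.2 (h2.trans h1)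

/-- Upper tail (up to `m + 2` terms of mean `1 / l`). -/
lemma tail_up2 {l η : ℝ} (hl : 0 < l) (hη : 0 < η) (h1 : η * l ≤ 1) (m : ℕ) {f : Ω → ℝ}
    (hf : Measurable f)
    (h : ∀ θ : ℝ, 0 < θ → θ < l → ∫⁻ ω, ENNReal.ofReal (Real.exp (θ * f ω)) ∂μ ≤
        ENNReal.ofReal ((l / (l - θ)) ^ (m + 2))) :
    μ {ω | (1 / l + η) * m ≤ f ω} ≤ ENNReal.ofReal (4 * Real.exp (-(η ^ 2 * l ^ 2 * m / 4))) := by
  obtain ⟨t, ht⟩ : ∃ t : ℝ, t = η * l / 2 := ⟨_, rfl⟩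
  have ht0 : 0 < t := by rw [ht]; positivity
  have ht1 : t ≤ 1 / 2 := by rw [ht]; linarith
  have h1t : 0 < 1 - t := by linarith
  have hθ0 : 0 < t * l := mul_pos ht0 hl
  have hθ1 : t * l < l := by nlinarith
  refine (chernoff hf hθ0.le).trans ((mul_le_mul_right (h (t * l) hθ0 hθ1) _).trans ?_)
  rw [← ENNReal.ofReal_mul (Real.exp_pos _).le]
  refine ENNReal.ofReal_le_ofReal ?_
  have he : l / (l - t * l) = (1 - t)⁻¹ := by
    have h1 : l - t * l = l * (1 - t) := by ring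
    rw [h1, div_mul_eq_div_div, div_self hl.ne', one_div]
  have h2 : (1 - t)⁻¹ ^ m ≤ Real.exp ((t + t ^ 2) * m) := by
    rw [mul_comm, Real.exp_nat_mul]
    exact pow_le_pow_left₀ (inv_nonneg.2 h1t.le) (cher2_exp_up ht0.le ht1) m
  have h3 : (1 - t)⁻¹ ^ 2 ≤ 4 := by
    have h4 : (1 - t)⁻¹ ≤ 2 := by
      rw [inv_le_comm₀ h1t (by norm_num)]
      linarith
    have h5 := pow_le_pow_left₀ (inv_nonneg.2 h1t.le) h4 2
    linarith
  have h4 : (1 - t)⁻¹ ^ m * (1 - t)⁻¹ ^ 2 ≤ Real.exp ((t + t ^ 2) * m) * 4 :=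
    mul_le_mul h2 h3 (by positivity) (Real.exp_pos _).le
  rw [he, pow_add]
  refine (mul_le_mul_of_nonneg_left h4 (Real.exp_pos _).le).trans (le_of_eq ?_)
  rw [← mul_assoc, ← Real.exp_add, mul_comm]
  congr 2
  rw [ht]
  field_simp
  ring

/-- Lower tail. -/
lemma tail_dn2 {l η : ℝ} (hl : 0 < l) (hη : 0 < η) (m : ℕ) {f : Ω → ℝ} (hf : Measurable f)
    (h : ∀ θ : ℝ, 0 < θ → ∫⁻ ω, ENNReal.ofReal (Real.exp (-(θ * f ω))) ∂μ ≤
        ENNReal.ofReal ((l / (l + θ)) ^ m)) :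
    μ {ω | f ω ≤ (1 / l - η) * m} ≤ ENNReal.ofReal (Real.exp (-(η ^ 2 * l ^ 2 * m / 2))) := by
  obtain ⟨t, ht⟩ : ∃ t : ℝ, t = η * l := ⟨_, rfl⟩
  have ht0 : 0 < t := by rw [ht]; positivity
  have h1t : 0 < 1 + t := by linarith
  have hθ0 : 0 < t * l := mul_pos ht0 hl
  have h3 : {ω | f ω ≤ (1 / l - η) * m} = {ω | -((1 / l - η) * m) ≤ -f ω} := by
    ext ω
    show f ω ≤ (1 / l - η) * m ↔ -((1 / l - η) * m) ≤ -f ω
    rw [neg_le_neg_iff]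
  have h4 : ∫⁻ ω, ENNReal.ofReal (Real.exp (t * l * -f ω)) ∂μ ≤
      ENNReal.ofReal ((l / (l + t * l)) ^ m) := by
    simp only [mul_neg]
    exact h (t * l) hθ0
  rw [h3]
  refine (chernoff (f := fun ω => -f ω) hf.neg hθ0.le).trans ((mul_le_mul_right h4 _).trans ?_)
  rw [← ENNReal.ofReal_mul (Real.exp_pos _).le]
  refine ENNReal.ofReal_le_ofReal ?_
  have he : l / (l + t * l) = (1 + t)⁻¹ := by
    have h1 : l + t * l = l * (1 + t) := by ring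
    rw [h1, div_mul_eq_div_div, div_self hl.ne', one_div]
  have h5 : (1 + t)⁻¹ ^ m ≤ Real.exp (-(t - t ^ 2 / 2) * m) := by
    rw [mul_comm, Real.exp_nat_mul]
    refine pow_le_pow_left₀ (inv_nonneg.2 h1t.le) ?_ m
    rw [Real.exp_neg]
    exact inv_anti₀ (Real.exp_pos _) (cher2_exp_dn ht0.le)
  rw [he]
  refine (mul_le_mul_of_nonneg_left h5 (Real.exp_pos _).le).trans (le_of_eq ?_)
  rw [← Real.exp_add]
  congr 1
  rw [ht]
  field_simp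
  ring

end Pool.Agent.FX
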