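import Pool.Agent.FX.PathL
import Pool.Agent.FX.Fam

/-! # The corner path has positive probability -/

open MeasureTheory ProbabilityTheory

namespace Pool.Agent.FX

private lemma Pos_tail : 0 < expMeasure 1 {x : ℝ | 1 ≤ x} := by
  rw [E_tail zero_le_one]
  exact ENNReal.ofReal_pos.2 (Real.exp_pos _)

private lemma Pos_box : 0 < expMeasure 1 (Set.Icc (0 : ℝ) 1) := by
  rw [pos_iff_ne_zero]
  intro h
  have h1 := E_tail (s := 0) le_rfl
  have h2 := E_tail (s := 1) zero_le_one
  have h3 : expMeasure 1 {x : ℝ | 0 ≤ x} ≤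
      expMeasure 1 (Set.Icc (0 : ℝ) 1) + expMeasure 1 {x : ℝ | 1 ≤ x} := by
    refine (measure_mono ?_).trans (measure_union_le _ _)
    intro x hx
    rcases le_total x 1 with h' | h'
    · exact Or.inl ⟨hx, h'⟩
    · exact Or.inr h'
  rw [h, h1, h2, zero_add, ENNReal.ofReal_le_ofReal_iff (Real.exp_pos _).le,
    Real.exp_le_exp] at h3
  norm_num at h3

/-- The box of environments: at least one on the corner path, in `[0,1]` elsewhere. -/
private def Pos_set (N : ℕ) (c : Fin (N + 1) × Fin (N + 1)) : Set ℝ :=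
  if c.1.val = 0 ∨ c.2.val = N then {x | 1 ≤ x} else Set.Icc 0 1

private lemma Pos_sub (N : ℕ) : Set.univ.pi (Pos_set N) ⊆ cone N (corner N) := by
  intro ω hω
  have h0 : ∀ c, ω c ∈ Pos_set N c := fun c => hω c trivial
  have hbig : ∀ c : Fin (N + 1) × Fin (N + 1), (c.1.val = 0 ∨ c.2.val = N) → 1 ≤ ω c := by
    intro c hc
    have h1 := h0 c
    rw [Pos_set, if_pos hc] at h1
    exact h1
  have hsmall : ∀ c : Fin (N + 1) × Fin (N + 1), ¬ (c.1.val = 0 ∨ c.2.val = N) →
      0 ≤ ω c ∧ ω c ≤ 1 := by
    intro c hc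
    have h1 := h0 c
    rw [Pos_set, if_neg hc] at h1
    exact h1
  refine ⟨fun c => ?_, fun v' hv => ?_⟩
  · by_cases hc : c.1.val = 0 ∨ c.2.val = N
    · exact zero_le_one.trans (hbig c hc)
    · exact (hsmall c hc).1
  · unfold len
    refine Finset.sum_le_sum fun k hk => ?_
    rw [Finset.mem_range] at hk
    have ha := hv.antidiag (k := k) (by omega)
    have hb1 := (v' k).1.isLt
    have hb2 := (v' k).2.isLt
    by_cases hc : (v' k).1.val = 0 ∨ (v' k).2.val = N
    · have he : v' k = corner N k := by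
        refine Prod.ext (Fin.ext ?_) (Fin.ext ?_)
        · simp only [corner]
          omega
        · simp only [corner]
          omega
      rw [he]
    · refine (hsmall _ hc).2.trans (hbig _ ?_)
      simp only [corner]
      omega

lemma corner_pos (N : ℕ) : 0 < law N (cone N (corner N)) := by
  have := isProbabilityMeasure_expMeasure (r := 1) one_pos
  refine lt_of_lt_of_le ?_ (measure_mono (Pos_sub N))
  unfold law
  rw [Measure.pi_pi, pos_iff_ne_zero, Finset.prod_ne_zero_iff]
  intro c _
  unfold Pos_set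
  split_ifs
  · exact Pos_tail.ne'
  · exact Pos_box.ne'

end Pool.Agent.FX
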