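import Pool.Agent.FY.Kor2
import Pool.Agent.FX.Tilt

/-! # The upper bound for an arbitrary path, with a rate -/

open MeasureTheory ProbabilityTheory

namespace Pool.Agent.FX

private lemma Upper2_ext_res {N : ℕ} (w : ℕ × ℕ → ℝ) {a b : ℕ} (ha : a ≤ N) (hb : b ≤ N) :
    ext (res N w) (a, b) = w (a, b) := by
  unfold ext
  rw [dif_pos ⟨Nat.lt_succ_of_le ha, Nat.lt_succ_of_le hb⟩]
  rfl

private lemma Upper2_measurable_ext (N : ℕ) : Measurable (ext : Env N → ℕ × ℕ → ℝ) := by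
  rw [measurable_pi_iff]
  intro c
  unfold ext
  by_cases h : c.1 < N + 1 ∧ c.2 < N + 1
  · simp only [dif_pos h]
    exact measurable_pi_apply _
  · simp only [dif_neg h]
    exact measurable_const

private lemma Upper2_turns_le (N : ℕ) (v : ℕ → Fin (N + 1) × Fin (N + 1)) :
    turns N v ≤ 2 * N := by
  unfold turns
  have h : {k | 1 ≤ k ∧ k < 2 * N ∧ IsTurn N v k} ⊆ (Finset.range (2 * N) : Set ℕ) := by
    intro k hk
    rw [Finset.coe_range, Set.mem_Iio]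
    exact hk.2.1
  have h1 := Set.ncard_le_ncard h (Finset.finite_toSet _)
  rwa [Set.ncard_coe_finset, Finset.card_range] at h1

private lemma Upper2_first {e : ℝ} {N : ℕ}
    (hN : ∀ (Ω : Type) [MeasurableSpace Ω] (μ : Measure Ω) (X : ℕ × ℕ → Ω → ℝ),
      ExpFam μ X (fun _ => 1) →
      μ {ω | lpp (fun c => X c ω) N N ≤ (4 - e) * N} ≤ ENNReal.ofReal (Real.exp (-(2 * N)))) :
    law N {w : Env N | lpp (ext w) N N ≤ (4 - e) * N} ≤
      ENNReal.ofReal (Real.exp (-(2 * N))) := by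
  obtain ⟨μ, hμ⟩ := exists_expFam (fun _ => 1) (fun _ => one_pos)
  have hA : MeasurableSet {w : Env N | lpp (ext w) N N ≤ (4 - e) * N} :=
    measurableSet_le ((measurable_lpp N N).comp (Upper2_measurable_ext N)) measurable_const
  have h1 := hμ.transfer (N := N) _ hA
  have h2 : law N {w : Env N | lpp (ext w) N N ≤ (4 - e) * N} =
      μ {ω | res N (fun c => ω c) ∈ {w : Env N | lpp (ext w) N N ≤ (4 - e) * N}} := h1
  rw [h2]
  refine le_trans (le_of_eq ?_) (hN _ μ (fun c ω => ω c) hμ)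
  congr 1
  ext ω
  simp only [Set.mem_ofPred_eq]
  rw [lpp_congr (w := ext (res N fun c => ω c)) (w' := fun c => ω c)
    (fun a ha b hb => Upper2_ext_res _ ha hb)]

private lemma Upper2_numeric {ε : ℝ} {N t : ℕ} (ht : t ≤ 2 * N) (hN : 2 ≤ 3 * ε / 4 * N)
    (hε : 0 < ε) :
    Real.exp (-(2 * N)) +
      Real.exp (-((4 - ε / 2) * N / 2)) * 2 ^ (2 * N + 1) * (2 / 3) ^ t ≤
      Real.exp (-((kap - ε) * N)) * (2 / 3) ^ t := by
  have hN0 : (0 : ℝ) ≤ N := Nat.cast_nonneg N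
  have hl2 : (0 : ℝ) < 2 := two_pos
  -- powers of two
  have h2 : (2 : ℝ) ^ (2 * N + 1) = 2 * Real.exp (2 * Real.log 2 * N) := by
    have h3 : Real.exp (2 * Real.log 2 * N) = (2 : ℝ) ^ (2 * N) := by
      rw [show 2 * Real.log 2 * (N : ℝ) = ((2 * N : ℕ) : ℝ) * Real.log 2 by push_cast; ring,
        Real.exp_nat_mul, Real.exp_log hl2]
    rw [h3, pow_succ]
    ring
  have hB : Real.exp (-((4 - ε / 2) * N / 2)) * 2 ^ (2 * N + 1) =
      2 * Real.exp (-((kap - ε / 4) * N)) := by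
    rw [h2, show -((kap - ε / 4) * (N : ℝ)) = -((4 - ε / 2) * N / 2) + 2 * Real.log 2 * N by
      unfold kap; ring, Real.exp_add]
    ring
  -- the first term
  have hA : Real.exp (-(2 * (N : ℝ))) ≤ Real.exp (-((kap - ε / 4) * N)) * (2 / 3) ^ t := by
    have h4 : (2 / 3 : ℝ) ^ (2 * N) ≤ (2 / 3) ^ t :=
      pow_le_pow_of_le_one (by norm_num) (by norm_num) ht
    have h5 : (2 / 3 : ℝ) ^ (2 * N) = Real.exp (-(2 * Real.log (3 / 2) * N)) := by
      rw [show -(2 * Real.log (3 / 2) * (N : ℝ)) = ((2 * N : ℕ) : ℝ) * Real.log (2 / 3) by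
        rw [show (2 / 3 : ℝ) = (3 / 2)⁻¹ by norm_num, Real.log_inv]
        push_cast
        ring, Real.exp_nat_mul, Real.exp_log (by norm_num)]
    refine le_trans ?_ (mul_le_mul_of_nonneg_left h4 (Real.exp_pos _).le)
    rw [h5, ← Real.exp_add]
    refine Real.exp_le_exp.2 ?_
    have h6 : Real.log (3 / 2) ≤ Real.log 2 := Real.log_le_log (by norm_num) (by norm_num)
    have h7 : Real.log (3 / 2) * N ≤ Real.log 2 * N := mul_le_mul_of_nonneg_right h6 hN0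
    have h8 : 0 ≤ ε / 4 * N := by positivity
    unfold kap
    nlinarith
  rw [hB]
  have hE : 3 * Real.exp (-((kap - ε / 4) * N)) ≤ Real.exp (-((kap - ε) * N)) := by
    rw [show -((kap - ε) * (N : ℝ)) = 3 * ε / 4 * N + -((kap - ε / 4) * N) by ring, Real.exp_add]
    refine mul_le_mul_of_nonneg_right ?_ (Real.exp_pos _).le
    have h9 := Real.add_one_le_exp (3 * ε / 4 * N)
    linarith
  have hp : (0 : ℝ) ≤ (2 / 3) ^ t := by positivity
  calc Real.exp (-(2 * (N : ℝ))) + 2 * Real.exp (-((kap - ε / 4) * N)) * (2 / 3) ^ t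
      ≤ Real.exp (-((kap - ε / 4) * N)) * (2 / 3) ^ t +
        2 * Real.exp (-((kap - ε / 4) * N)) * (2 / 3) ^ t := by linarith
    _ = 3 * Real.exp (-((kap - ε / 4) * N)) * (2 / 3) ^ t := by ring
    _ ≤ Real.exp (-((kap - ε) * N)) * (2 / 3) ^ t := mul_le_mul_of_nonneg_right hE hp

lemma upper2 : ∃ C : ℝ, 0 < C ∧ ∃ q₀ : ℕ, ∀ q ≥ q₀, ∀ N : ℕ, q ^ 9 ≤ N → ∀ v, IsPath N v →
    law N (cone N v) ≤
      ENNReal.ofReal (Real.exp (-((kap - C / q) * N)) * (2 / 3) ^ turns N v) := by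
  obtain ⟨C₀, hC₀, q₁, hq₁⟩ := lower_tail2
  obtain ⟨q₂, hq₂⟩ := exists_nat_ge (4 / (3 * C₀))
  refine ⟨2 * C₀, by positivity, max q₁ (max q₂ 1), fun q hq N hN v hv => ?_⟩
  have h1 : q₁ ≤ q := (le_max_left _ _).trans hq
  have h2 : q₂ ≤ q := ((le_max_left _ _).trans (le_max_right _ _)).trans hq
  have h2' : 1 ≤ q := ((le_max_right _ _).trans (le_max_right _ _)).trans hq
  have hq1 : (1 : ℝ) ≤ q := by exact_mod_cast h2'
  have hq0 : (0 : ℝ) < q := one_pos.trans_le hq1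
  have hε : 0 < 2 * C₀ / (q : ℝ) := by positivity
  have h3 : 2 ≤ 3 * (2 * C₀ / (q : ℝ)) / 4 * N := by
    have h4 : 4 / (3 * C₀) ≤ (q : ℝ) := hq₂.trans (by exact_mod_cast h2)
    rw [div_le_iff₀ (by positivity)] at h4
    have h5 : ((q : ℝ)) ^ 9 ≤ N := by exact_mod_cast hN
    have h6 : (q : ℝ) ≤ q ^ 8 := le_self_pow₀ hq1 (by norm_num)
    have h7 : 3 * (2 * C₀ / (q : ℝ)) / 4 * (q : ℝ) ^ 9 = 3 * C₀ / 2 * (q : ℝ) ^ 8 := by
      field_simp
      ring
    have h8 : 3 * (2 * C₀ / (q : ℝ)) / 4 * (q : ℝ) ^ 9 ≤ 3 * (2 * C₀ / (q : ℝ)) / 4 * N :=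
      mul_le_mul_of_nonneg_left h5 (by positivity)
    have h9 : 3 * C₀ / 2 * (q : ℝ) ≤ 3 * C₀ / 2 * (q : ℝ) ^ 8 :=
      mul_le_mul_of_nonneg_left h6 (by positivity)
    rw [h7] at h8
    linarith
  have he : 2 * C₀ / (q : ℝ) / 2 = C₀ / q := by ring
  have hsub : cone N v ⊆ {w : Env N | lpp (ext w) N N ≤ (4 - 2 * C₀ / (q : ℝ) / 2) * N} ∪
      {w | (4 - 2 * C₀ / (q : ℝ) / 2) * N ≤ len N v w ∧
        ∀ k, 1 ≤ k → k < 2 * N → IsTurn N v k → w (alt N v k) ≤ w (v k)} := by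
    intro w hw
    obtain ⟨v', hv', hlen⟩ := exists_path N w
    have h5 : lpp (ext w) N N ≤ len N v w := by
      rw [← hlen]
      exact hw.2 v' hv'
    rcases le_or_gt (lpp (ext w) N N) ((4 - 2 * C₀ / (q : ℝ) / 2) * N) with h6 | h6
    · exact Or.inl h6
    · exact Or.inr ⟨(h6.trans_le h5).le, fun k hk1 hk2 ht => hv.alt_le hk1 hk2 ht hw⟩
  refine (measure_mono hsub).trans ((measure_union_le _ _).trans ?_)
  refine (add_le_add (Upper2_first (e := 2 * C₀ / (q : ℝ) / 2)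
    (by rw [he]; exact hq₁ q h1 N hN)) (tilt hv ((4 - 2 * C₀ / (q : ℝ) / 2) * N))).trans ?_
  rw [← ENNReal.ofReal_add (Real.exp_pos _).le (by positivity)]
  exact ENNReal.ofReal_le_ofReal (Upper2_numeric (Upper2_turns_le N v) h3 hε)

end Pool.Agent.FX
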