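import Pool.Agent.FY.Lower2
import Pool.Agent.FY.Upper2
import Pool.Agent.FY.Pos
import Pool.Agent.FX.Count

/-! # The final theorem, with a rate -/

open MeasureTheory ProbabilityTheory

namespace Pool.Agent.FX

private lemma f2_prob (N : ℕ) : IsProbabilityMeasure (law N) := by
  have : IsProbabilityMeasure (expMeasure 1) := isProbabilityMeasure_expMeasure one_pos
  unfold law; infer_instance

private lemma f2_turns (N : ℕ) (v : ℕ → Fin (N + 1) × Fin (N + 1)) : turns N v ≤ 2 * N := by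
  unfold turns
  have h : {k | 1 ≤ k ∧ k < 2 * N ∧ IsTurn N v k} ⊆ (Finset.range (2 * N) : Set ℕ) := by
    intro k hk
    simpa using hk.2.1
  have := Set.ncard_le_ncard h (Finset.finite_toSet _)
  rwa [Set.ncard_coe_finset, Finset.card_range] at this

/-- The inequality for every path. -/
private lemma f2_main : ∃ C : ℝ, 0 < C ∧ ∀ N : ℕ, 1 ≤ N → ∀ v, IsPath N v →
    law N (cone N v) ≤
      ENNReal.ofReal (Real.exp (C * (N : ℝ) ^ (8 / 9 : ℝ)) * (2 / 3) ^ turns N v) *
        law N (cone N (corner N)) := by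
  obtain ⟨C₁, hC₁, q₁, h₁⟩ := lower2
  obtain ⟨C₂, hC₂, q₂, h₂⟩ := upper2
  set q₀ : ℕ := max 1 (max q₁ q₂) with hq₀
  -- small N
  have hsmall : ∃ p : ℝ, 0 < p ∧ p ≤ 1 ∧ ∀ N < q₀ ^ 9, p ≤ (law N (cone N (corner N))).toReal := by
    have hall : ∀ M : ℕ, ∃ p : ℝ, 0 < p ∧ p ≤ 1 ∧
        ∀ N < M, p ≤ (law N (cone N (corner N))).toReal := by
      intro M
      induction M with
      | zero => exact ⟨1, one_pos, le_rfl, fun N hN => absurd hN (Nat.not_lt_zero _)⟩
      | succ M ih =>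
        obtain ⟨p, hp, hp1, hpM⟩ := ih
        have := f2_prob M
        have hpos : 0 < (law M (cone M (corner M))).toReal :=
          ENNReal.toReal_pos (corner_pos M).ne' (measure_ne_top _ _)
        refine ⟨min p (law M (cone M (corner M))).toReal, lt_min hp hpos,
          (min_le_left _ _).trans hp1, fun N hN => ?_⟩
        rcases Nat.lt_succ_iff_lt_or_eq.1 hN with h | h
        · exact (min_le_left _ _).trans (hpM N h)
        · rw [h]; exact min_le_right _ _
    exact hall _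
  obtain ⟨p, hp, hp1, hpN⟩ := hsmall
  set B : ℝ := Real.log (((3 : ℝ) / 2) ^ (2 * q₀ ^ 9) / p) with hB
  have hBarg : 1 ≤ ((3 : ℝ) / 2) ^ (2 * q₀ ^ 9) / p := by
    rw [le_div_iff₀ hp, one_mul]
    exact hp1.trans (one_le_pow₀ (by norm_num))
  have hB0 : 0 ≤ B := Real.log_nonneg hBarg
  refine ⟨2 * (C₁ + C₂) + B, by positivity, fun N hN v hv => ?_⟩
  have hNr : (1 : ℝ) ≤ N := by exact_mod_cast hN
  have hN0 : (0 : ℝ) ≤ N := by linarith
  have := f2_prob N
  have hpow1 : (1 : ℝ) ≤ (N : ℝ) ^ (8 / 9 : ℝ) := Real.one_le_rpow hNr (by norm_num)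
  rcases Nat.lt_or_ge N (q₀ ^ 9) with hlt | hge
  · -- small N: trivial bound
    have hle1 : law N (cone N v) ≤ 1 := prob_le_one
    refine hle1.trans ?_
    have hx : p ≤ (law N (cone N (corner N))).toReal := hpN N hlt
    have hx' : ENNReal.ofReal p ≤ law N (cone N (corner N)) :=
      (ENNReal.ofReal_le_iff_le_toReal (measure_ne_top _ _)).2 hx
    refine le_trans ?_ (mul_le_mul_right hx' _)
    rw [← ENNReal.ofReal_mul (by positivity), ENNReal.one_le_ofReal]
    have ht : turns N v ≤ 2 * q₀ ^ 9 := (f2_turns N v).trans (by omega)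
    have h23 : ((2 : ℝ) / 3) ^ (2 * q₀ ^ 9) ≤ (2 / 3) ^ turns N v :=
      pow_le_pow_of_le_one (by norm_num) (by norm_num) ht
    have hexp : Real.exp B ≤ Real.exp ((2 * (C₁ + C₂) + B) * (N : ℝ) ^ (8 / 9 : ℝ)) := by
      apply Real.exp_le_exp.2
      have : B * 1 ≤ (2 * (C₁ + C₂) + B) * (N : ℝ) ^ (8 / 9 : ℝ) :=
        mul_le_mul (by linarith) hpow1 (by norm_num) (by positivity)
      linarith
    have hBe : Real.exp B = ((3 : ℝ) / 2) ^ (2 * q₀ ^ 9) / p := Real.exp_log (by positivity)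
    calc (1 : ℝ) = (((3 : ℝ) / 2) ^ (2 * q₀ ^ 9) / p) * (2 / 3) ^ (2 * q₀ ^ 9) * p := by
          have : ((3 : ℝ) / 2) ^ (2 * q₀ ^ 9) * (2 / 3) ^ (2 * q₀ ^ 9) = 1 := by
            rw [← mul_pow]; norm_num
          field_simp
          rw [← mul_pow]; norm_num
      _ ≤ Real.exp ((2 * (C₁ + C₂) + B) * (N : ℝ) ^ (8 / 9 : ℝ)) * (2 / 3) ^ turns N v * p := by
          rw [← hBe]
          apply mul_le_mul_of_nonneg_right _ hp.le
          exact mul_le_mul hexp h23 (by positivity) (by positivity)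
  · -- large N
    set x : ℝ := (N : ℝ) ^ (1 / 9 : ℝ) with hx
    have hx0 : 0 ≤ x := Real.rpow_nonneg hN0 _
    have hx9 : x ^ 9 = N := by
      rw [hx, ← Real.rpow_natCast, ← Real.rpow_mul hN0]; norm_num
    have hx8 : x ^ 8 = (N : ℝ) ^ (8 / 9 : ℝ) := by
      rw [hx, ← Real.rpow_natCast, ← Real.rpow_mul hN0]; norm_num
    have hx1 : 1 ≤ x := Real.one_le_rpow hNr (by norm_num)
    set q : ℕ := ⌊x⌋₊ with hq
    have hqle : (q : ℝ) ≤ x := Nat.floor_le hx0
    have hqlt : x < q + 1 := Nat.lt_floor_add_one x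
    have hq1 : 1 ≤ q := Nat.le_floor (by simpa using hx1)
    have hq1' : (1 : ℝ) ≤ q := by exact_mod_cast hq1
    have hq9 : q ^ 9 ≤ N := by
      have : ((q : ℝ)) ^ 9 ≤ x ^ 9 := pow_le_pow_left₀ (by positivity) hqle 9
      rw [hx9] at this
      exact_mod_cast this
    have hqq : q₀ ≤ q := by
      apply Nat.le_floor
      have h9 : ((q₀ : ℝ)) ^ 9 ≤ x ^ 9 := by rw [hx9]; exact_mod_cast hge
      exact le_of_pow_le_pow_left₀ (by norm_num) hx0 h9
    have hA := h₂ q (le_trans (le_trans (le_max_right _ _) (le_max_right _ _)) hqq) N hq9 v hv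
    have hL := h₁ q (le_trans (le_trans (le_max_left _ _) (le_max_right _ _)) hqq) N hq9
    refine hA.trans (le_trans ?_ (mul_le_mul_right hL _))
    rw [← ENNReal.ofReal_mul (by positivity)]
    apply ENNReal.ofReal_le_ofReal
    rw [mul_right_comm, ← Real.exp_add]
    apply mul_le_mul_of_nonneg_right _ (by positivity)
    apply Real.exp_le_exp.2
    have hqpos : (0 : ℝ) < q := by linarith
    have hxq : x / q ≤ 2 := by rw [div_le_iff₀ hqpos]; linarith
    have hNq : (N : ℝ) / q ≤ 2 * (N : ℝ) ^ (8 / 9 : ℝ) := by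
      rw [← hx8, ← hx9]
      have : x ^ 9 / q = x ^ 8 * (x / q) := by ring
      rw [this]
      nlinarith [pow_nonneg hx0 8]
    have hmul : (C₁ + C₂) * ((N : ℝ) / q) ≤ (C₁ + C₂) * (2 * (N : ℝ) ^ (8 / 9 : ℝ)) :=
      mul_le_mul_of_nonneg_left hNq (by positivity)
    have hBN : 0 ≤ B * (N : ℝ) ^ (8 / 9 : ℝ) := by positivity
    have e : -((kap - C₂ / q) * N) =
        (C₁ + C₂) * ((N : ℝ) / q) + -((kap + C₁ / q) * N) := by
      field_simp; ring
    rw [e]
    nlinarith

lemma final2 : ∃ C : ℝ, 0 < C ∧ ∀ N : ℕ, 1 ≤ N →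
    (∀ v, IsPath N v → C * (N : ℝ) ^ (8 / 9 : ℝ) ≤ turns N v →
      law N (cone N v) < law N (cone N (corner N))) ∧
    (Set.ncard {S | ∃ v, IsPath N v ∧ law N (cone N (corner N)) ≤ law N (cone N v) ∧
      S = trace N v} : ℝ) ≤ Real.exp (C * (N : ℝ) ^ (8 / 9 : ℝ) * Real.log (N + 1)) ∧
    ∀ v, IsPath N v → law N (cone N v) ≤
      ENNReal.ofReal (Real.exp (C * (N : ℝ) ^ (8 / 9 : ℝ)) * (2 / 3) ^ turns N v) *
        law N (cone N (corner N)) := by
  obtain ⟨A, hA, h⟩ := f2_main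
  have hlog : 0 < Real.log (3 / 2) := Real.log_pos (by norm_num)
  -- constant for the strict inequality
  set D : ℝ := A / Real.log (3 / 2) + 1 with hD
  have hD0 : 0 < D := by positivity
  have hstrict : ∀ N : ℕ, 1 ≤ N → ∀ v, IsPath N v → D * (N : ℝ) ^ (8 / 9 : ℝ) ≤ turns N v →
      law N (cone N v) < law N (cone N (corner N)) := by
    intro N hN v hv ht
    have hNr : (1 : ℝ) ≤ N := by exact_mod_cast hN
    have hpow1 : (1 : ℝ) ≤ (N : ℝ) ^ (8 / 9 : ℝ) := Real.one_le_rpow hNr (by norm_num)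
    have := f2_prob N
    have hpos : 0 < law N (cone N (corner N)) := corner_pos N
    refine (h N hN v hv).trans_lt ?_
    have hlt : Real.exp (A * (N : ℝ) ^ (8 / 9 : ℝ)) * (2 / 3) ^ turns N v < 1 := by
      have hpow : ((2 : ℝ) / 3) ^ turns N v = Real.exp (-(Real.log (3 / 2) * turns N v)) := by
        have h23 : Real.log ((2 : ℝ) / 3) = -Real.log (3 / 2) := by
          rw [← Real.log_inv]; congr 1; norm_num
        rw [← Real.exp_log (show (0 : ℝ) < (2 / 3) ^ turns N v by positivity), Real.log_pow, h23]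
        congr 1; ring
      rw [hpow, ← Real.exp_add, Real.exp_lt_one_iff]
      have h1 : Real.log (3 / 2) * (D * (N : ℝ) ^ (8 / 9 : ℝ)) ≤ Real.log (3 / 2) * turns N v :=
        mul_le_mul_of_nonneg_left ht hlog.le
      have h2 : Real.log (3 / 2) * (D * (N : ℝ) ^ (8 / 9 : ℝ)) =
          A * (N : ℝ) ^ (8 / 9 : ℝ) + Real.log (3 / 2) * (N : ℝ) ^ (8 / 9 : ℝ) := by
        rw [hD]; field_simp
      have h3 : 0 < Real.log (3 / 2) * (N : ℝ) ^ (8 / 9 : ℝ) := by positivity
      linarith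
    calc ENNReal.ofReal (Real.exp (A * (N : ℝ) ^ (8 / 9 : ℝ)) * (2 / 3) ^ turns N v) *
          law N (cone N (corner N))
        < 1 * law N (cone N (corner N)) := by
          rw [mul_comm, mul_comm (1 : ENNReal)]
          exact (ENNReal.mul_lt_mul_iff_right hpos.ne' (measure_ne_top _ _)).2
            (ENNReal.ofReal_lt_one.2 hlt)
      _ = law N (cone N (corner N)) := one_mul _
  -- constant for the count
  refine ⟨A + 2 * D + 10, by positivity, fun N hN => ?_⟩
  have hNr : (1 : ℝ) ≤ N := by exact_mod_cast hN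
  have hN0 : (0 : ℝ) < N := by linarith
  have hpow1 : (1 : ℝ) ≤ (N : ℝ) ^ (8 / 9 : ℝ) := Real.one_le_rpow hNr (by norm_num)
  have hpow0 : (0 : ℝ) < (N : ℝ) ^ (8 / 9 : ℝ) := by linarith
  refine ⟨fun v hv ht => hstrict N hN v hv (le_trans ?_ ht), ?_, fun v hv => ?_⟩
  · apply mul_le_mul_of_nonneg_right _ hpow0.le
    linarith
  · set m : ℕ := ⌊D * (N : ℝ) ^ (8 / 9 : ℝ)⌋₊ with hm
    have hDN : 0 ≤ D * (N : ℝ) ^ (8 / 9 : ℝ) := by positivity
    have hmle : (m : ℝ) ≤ D * (N : ℝ) ^ (8 / 9 : ℝ) := Nat.floor_le hDN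
    have hsub : {S | ∃ v, IsPath N v ∧ law N (cone N (corner N)) ≤ law N (cone N v) ∧
        S = trace N v} ⊆ {S | ∃ v, IsPath N v ∧ turns N v ≤ m ∧ S = trace N v} := by
      rintro S ⟨v, hv, hle, hS⟩
      refine ⟨v, hv, ?_, hS⟩
      by_contra hcon
      push Not at hcon
      exact absurd hle (not_le.2 (hstrict N hN v hv (Nat.lt_of_floor_lt hcon).le))
    have hxx : (0 : ℝ) < 1 / (2 * N) := by positivity
    have h3 : (Set.ncard {S | ∃ v, IsPath N v ∧ law N (cone N (corner N)) ≤ law N (cone N v) ∧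
        S = trace N v} : ℝ) ≤ 2 * ((1 + 1 / (2 * (N : ℝ))) ^ (2 * N) / (1 / (2 * (N : ℝ))) ^ m) :=
      le_trans (by exact_mod_cast Set.ncard_le_ncard hsub (Set.toFinite _))
        (count_le N m hxx (by rw [div_le_one (by positivity)]; linarith))
    refine h3.trans ?_
    have hlogN : Real.log 2 ≤ Real.log (N + 1) := Real.log_le_log (by norm_num) (by linarith)
    have hlog2 : (0.6931471803 : ℝ) < Real.log 2 := Real.log_two_gt_d9
    have hlogpos : 0 < Real.log (N + 1) := by linarith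
    have e1 : (1 + 1 / (2 * (N : ℝ))) ^ (2 * N) ≤ Real.exp 1 := by
      have : 1 + 1 / (2 * (N : ℝ)) ≤ Real.exp (1 / (2 * N)) := by
        linarith [Real.add_one_le_exp (1 / (2 * (N : ℝ)))]
      calc (1 + 1 / (2 * (N : ℝ))) ^ (2 * N) ≤ (Real.exp (1 / (2 * N))) ^ (2 * N) :=
            pow_le_pow_left₀ (by positivity) this _
        _ = Real.exp 1 := by
            rw [← Real.exp_nat_mul]; congr 1; push_cast; field_simp
    have e2 : 1 / (1 / (2 * (N : ℝ))) ^ m ≤ Real.exp (2 * Real.log (N + 1) * m) := by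
      have : 1 / (1 / (2 * (N : ℝ))) ^ m = (2 * (N : ℝ)) ^ m := by
        rw [one_div_pow]; field_simp
      rw [this]
      have h2N : 2 * (N : ℝ) ≤ Real.exp (2 * Real.log (N + 1)) := by
        have : Real.exp (2 * Real.log (N + 1)) = ((N : ℝ) + 1) ^ 2 := by
          rw [mul_comm, Real.exp_mul, Real.exp_log (by positivity)]
          norm_cast
        rw [this]; nlinarith
      calc (2 * (N : ℝ)) ^ m ≤ (Real.exp (2 * Real.log (N + 1))) ^ m :=
            pow_le_pow_left₀ (by positivity) h2N _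
        _ = _ := by rw [← Real.exp_nat_mul]; congr 1; ring
    have e3 : (2 : ℝ) ≤ Real.exp (Real.log (N + 1)) := by
      rw [Real.exp_log (by positivity)]; linarith
    calc 2 * ((1 + 1 / (2 * (N : ℝ))) ^ (2 * N) / (1 / (2 * (N : ℝ))) ^ m)
        = 2 * ((1 + 1 / (2 * (N : ℝ))) ^ (2 * N) * (1 / (1 / (2 * (N : ℝ))) ^ m)) := by ring
      _ ≤ Real.exp (Real.log (N + 1)) * (Real.exp 1 * Real.exp (2 * Real.log (N + 1) * m)) := by
          apply mul_le_mul e3 (mul_le_mul e1 e2 (by positivity) (by positivity)) (by positivity)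
            (by positivity)
      _ = Real.exp (Real.log (N + 1) + (1 + 2 * Real.log (N + 1) * m)) := by
          rw [← Real.exp_add, ← Real.exp_add]
      _ ≤ _ := by
          apply Real.exp_le_exp.2
          have a1 : 2 * Real.log (N + 1) * m ≤ 2 * Real.log (N + 1) * (D * (N : ℝ) ^ (8 / 9 : ℝ)) :=
            mul_le_mul_of_nonneg_left hmle (by positivity)
          have a2 : Real.log (N + 1) ≤ (N : ℝ) ^ (8 / 9 : ℝ) * Real.log (N + 1) := by nlinarith
          have a3 : (1 : ℝ) ≤ 2 * ((N : ℝ) ^ (8 / 9 : ℝ) * Real.log (N + 1)) := by nlinarith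
          have a4 : 0 ≤ A * ((N : ℝ) ^ (8 / 9 : ℝ) * Real.log (N + 1)) := by positivity
          nlinarith
  · refine (h N hN v hv).trans ?_
    apply mul_le_mul_left
    apply ENNReal.ofReal_le_ofReal
    apply mul_le_mul_of_nonneg_right _ (by positivity)
    apply Real.exp_le_exp.2
    apply mul_le_mul_of_nonneg_right _ hpow0.le
    linarith

end Pool.Agent.FX
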