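import Pool.Agent.FY.Blk

/-! # The lower tail, with a rate -/

open MeasureTheory ProbabilityTheory

namespace Pool.Agent.FX

/-- The passage time of the block `b` of side `l`. -/
private noncomputable def Kor2_L (l : ℕ) (b : ℕ × ℕ) (w : ℕ × ℕ → ℝ) : ℝ :=
  lpp (fun d => w (b.1 * l + d.1, b.2 * l + d.2)) (l - 1) (l - 1)

/-- The cells of the block `b`. -/
private def Kor2_cells (l : ℕ) (b : ℕ × ℕ) : Finset (ℕ × ℕ) :=
  (Finset.range l ×ˢ Finset.range l).image fun d => (b.1 * l + d.1, b.2 * l + d.2)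

private lemma Kor2_measurable (l : ℕ) (b : ℕ × ℕ) : Measurable (Kor2_L l b) := by
  unfold Kor2_L
  exact (measurable_lpp (l - 1) (l - 1)).comp
    (measurable_pi_lambda _ fun d => measurable_pi_apply _)

private lemma Kor2_congr {l : ℕ} (hl : 1 ≤ l) (b : ℕ × ℕ) {w w' : ℕ × ℕ → ℝ}
    (h : ∀ c ∈ Kor2_cells l b, w c = w' c) : Kor2_L l b w = Kor2_L l b w' := by
  unfold Kor2_L
  refine lpp_congr fun x hx y hy => ?_
  refine h _ ?_
  unfold Kor2_cells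
  rw [Finset.mem_image]
  exact ⟨(x, y), Finset.mem_product.2 ⟨Finset.mem_range.2 (by omega),
    Finset.mem_range.2 (by omega)⟩, rfl⟩

private lemma Kor2_div {l : ℕ} {b c : ℕ × ℕ} (h : c ∈ Kor2_cells l b) :
    (c.1 / l, c.2 / l) = b := by
  unfold Kor2_cells at h
  rw [Finset.mem_image] at h
  obtain ⟨d, hd, rfl⟩ := h
  rw [Finset.mem_product, Finset.mem_range, Finset.mem_range] at hd
  have hl : 0 < l := by omega
  refine Prod.ext ?_ ?_
  · show (b.1 * l + d.1) / l = b.1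
    rw [Nat.add_comm, Nat.add_mul_div_right _ _ hl, Nat.div_eq_of_lt hd.1, zero_add]
  · show (b.2 * l + d.2) / l = b.2
    rw [Nat.add_comm, Nat.add_mul_div_right _ _ hl, Nat.div_eq_of_lt hd.2, zero_add]

private lemma Kor2_prod {Ω : Type} [MeasurableSpace Ω] {μ : Measure Ω} {X : ℕ × ℕ → Ω → ℝ}
    (h : ExpFam μ X (fun _ => 1)) {l : ℕ} (hl : 1 ≤ l) (θ : ℝ) (B : Finset (ℕ × ℕ)) :
    ∫⁻ ω, ∏ b ∈ B, ENNReal.ofReal (Real.exp (-(θ * Kor2_L l b (fun c => X c ω)))) ∂μ =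
      ∏ b ∈ B, ∫⁻ ω, ENNReal.ofReal (Real.exp (-(θ * Kor2_L l b (fun c => X c ω)))) ∂μ := by
  classical
  have hmeas : ∀ b : ℕ × ℕ, Measurable fun w : ℕ × ℕ → ℝ =>
      ENNReal.ofReal (Real.exp (-(θ * Kor2_L l b w))) := fun b =>
    (Real.measurable_exp.comp (((Kor2_measurable l b).const_mul θ).neg)).ennreal_ofReal
  induction B using Finset.induction_on with
  | empty =>
    have := h.prob
    simp
  | insert b B hb ih =>
    rw [Finset.prod_insert hb, ← ih]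
    simp_rw [Finset.prod_insert hb]
    refine h.indep2 (S := Kor2_cells l b) (T := B.biUnion (Kor2_cells l))
      (f := fun w => ENNReal.ofReal (Real.exp (-(θ * Kor2_L l b w))))
      (g := fun w => ∏ b ∈ B, ENNReal.ofReal (Real.exp (-(θ * Kor2_L l b w)))) ?_ (hmeas b)
      (Finset.measurable_prod _ fun b _ => hmeas b) ?_ ?_
    · rw [Finset.disjoint_left]
      intro c hc hc'
      rw [Finset.mem_biUnion] at hc'
      obtain ⟨b', hb', hc'⟩ := hc'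
      rw [← Kor2_div hc, Kor2_div hc'] at hb
      exact hb hb'
    · intro w w' hw
      simp only [Kor2_congr hl b hw]
    · intro w w' hw
      refine Finset.prod_congr rfl fun b' hb' => ?_
      rw [Kor2_congr hl b' fun c hc => hw c (Finset.mem_biUnion.2 ⟨b', hb', hc⟩)]

private lemma Kor2_numeric {c A : ℝ} (hc : 0 < c) (hA : 1 ≤ A) {q N l m : ℕ} (hq : 2 ≤ q)
    (hqA : 2 * A ≤ q) (hN : q ^ 9 ≤ N) (hl1 : A * q ^ 4 ≤ l) (hl2 : (l : ℝ) ≤ A * q ^ 4 + 1)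
    (hm : m = (N + 1) / l - q ^ 4) : q ^ 4 ≤ (N + 1) / l ∧
    c / q ^ 3 * (((q ^ 4 : ℕ) : ℝ) * ((4 - (8 + 16 * A + 4 / c) / q) * N)) +
      ((q ^ 4 * m : ℕ) : ℝ) * (Real.log 2 - c / q ^ 3 * (4 - 8 * (1 / (q : ℝ))) * l) ≤
        -(2 * N) := by
  have hq' : (2 : ℝ) ≤ q := by exact_mod_cast hq
  have hq0 : (0 : ℝ) < q := by linarith
  have hN' : (q : ℝ) ^ 9 ≤ N := by exact_mod_cast hN
  have hq4 : (1 : ℝ) ≤ (q : ℝ) ^ 4 := one_le_pow₀ (by linarith)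
  have hAq : (q : ℝ) ^ 4 ≤ A * q ^ 4 := le_mul_of_one_le_left (by positivity) hA
  have hl0 : (0 : ℝ) < l := by linarith
  have hl : 0 < l := by exact_mod_cast hl0
  have hl3 : (l : ℝ) ≤ 2 * (A * q ^ 4) := by linarith
  have h9 : 2 * A * (q : ℝ) ^ 8 ≤ q ^ 9 := by
    have h1 := mul_le_mul_of_nonneg_right hqA (show (0 : ℝ) ≤ (q : ℝ) ^ 8 by positivity)
    have h2 : (q : ℝ) * q ^ 8 = q ^ 9 := by ring
    rwa [h2] at h1
  have hKl : (q : ℝ) ^ 4 * l ≤ 2 * A * (q : ℝ) ^ 8 := by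
    have h1 := mul_le_mul_of_nonneg_left hl3 (show (0 : ℝ) ≤ (q : ℝ) ^ 4 by positivity)
    have h2 : (q : ℝ) ^ 4 * (2 * (A * q ^ 4)) = 2 * A * (q : ℝ) ^ 8 := by ring
    rwa [h2] at h1
  have hK : q ^ 4 ≤ (N + 1) / l := by
    rw [Nat.le_div_iff_mul_le hl]
    have h1 : ((q ^ 4 * l : ℕ) : ℝ) ≤ ((N + 1 : ℕ) : ℝ) := by
      push_cast
      linarith
    exact_mod_cast h1
  refine ⟨hK, ?_⟩
  have hsum : q ^ 4 + m = (N + 1) / l := by omega
  have hup : (q ^ 4 + m) * l ≤ N + 1 := by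
    rw [hsum]
    exact Nat.div_mul_le_self _ _
  have hlo : N ≤ (q ^ 4 + m) * l + l := by
    rw [hsum]
    have h3 := Nat.div_add_mod (N + 1) l
    have h4 := Nat.mod_lt (N + 1) hl
    have h5 : l * ((N + 1) / l) = (N + 1) / l * l := Nat.mul_comm _ _
    omega
  have hup' : ((q : ℝ) ^ 4 + m) * l ≤ N + 1 := by exact_mod_cast hup
  have hlo' : (N : ℝ) ≤ ((q : ℝ) ^ 4 + m) * l + l := by exact_mod_cast hlo
  have hN1 : (1 : ℝ) ≤ N := le_trans (one_le_pow₀ (by linarith)) hN'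
  have hm0 : (0 : ℝ) ≤ m := Nat.cast_nonneg m
  have hlog : Real.log 2 ≤ 1 := by
    have := Real.log_two_lt_d9
    linarith
  have hlog0 : 0 ≤ Real.log 2 := Real.log_nonneg (by norm_num)
  push_cast
  have e : c / (q : ℝ) ^ 3 * ((q : ℝ) ^ 4 * ((4 - (8 + 16 * A + 4 / c) / q) * N)) +
      (q : ℝ) ^ 4 * m * (Real.log 2 - c / q ^ 3 * (4 - 8 * (1 / (q : ℝ))) * l) =
      c * (4 * q - (8 + 16 * A)) * N - 4 * N - c * (4 * q - 8) * (m * l) +
        (q : ℝ) ^ 4 * m * Real.log 2 := by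
    field_simp
    ring
  rw [e]
  have g1 : (q : ℝ) ^ 4 * m * Real.log 2 ≤ 2 * N := by
    have h1 : (q : ℝ) ^ 4 * m * Real.log 2 ≤ (q : ℝ) ^ 4 * m * 1 :=
      mul_le_mul_of_nonneg_left hlog (by positivity)
    have h2 : (q : ℝ) ^ 4 * m ≤ l * m := mul_le_mul_of_nonneg_right (by linarith) hm0
    have h3 : (0 : ℝ) ≤ (q : ℝ) ^ 4 * l := by positivity
    nlinarith
  have g2 : (N : ℝ) - 4 * A * (q : ℝ) ^ 8 ≤ m * l := by
    have h1 : (l : ℝ) ≤ (q : ℝ) ^ 4 * l := le_mul_of_one_le_left hl0.le hq4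
    nlinarith
  have g3 : c * (4 * q - 8) * ((N : ℝ) - 4 * A * (q : ℝ) ^ 8) ≤ c * (4 * q - 8) * (m * l) :=
    mul_le_mul_of_nonneg_left g2 (mul_nonneg hc.le (by linarith))
  have g4 : c * (4 * q - 8) * (4 * A * (q : ℝ) ^ 8) ≤ 16 * c * A * N := by
    have h1 : c * (4 * q - 8) * (4 * A * (q : ℝ) ^ 8) ≤ c * (4 * q) * (4 * A * (q : ℝ) ^ 8) := by
      refine mul_le_mul_of_nonneg_right (mul_le_mul_of_nonneg_left (by linarith) hc.le) ?_
      positivity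
    have h2 : c * (4 * q) * (4 * A * (q : ℝ) ^ 8) = 16 * c * A * (q : ℝ) ^ 9 := by ring
    rw [h2] at h1
    exact h1.trans (mul_le_mul_of_nonneg_left hN' (by positivity))
  nlinarith

lemma lower_tail2 : ∃ C : ℝ, 0 < C ∧ ∃ q₀ : ℕ, ∀ q ≥ q₀, ∀ N : ℕ, q ^ 9 ≤ N →
    ∀ (Ω : Type) [MeasurableSpace Ω] (μ : Measure Ω) (X : ℕ × ℕ → Ω → ℝ),
      ExpFam μ X (fun _ => 1) →
      μ {ω | lpp (fun c => X c ω) N N ≤ (4 - C / q) * N} ≤
        ENNReal.ofReal (Real.exp (-(2 * N))) := by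
  classical
  obtain ⟨c, A, hc, hA, hblk⟩ := blk
  refine ⟨8 + 16 * A + 4 / c, by positivity, max 2 ⌈2 * A⌉₊, fun q hq N hN Ω _ μ X hX => ?_⟩
  have := hX.prob
  have hq2 : 2 ≤ q := le_trans (le_max_left _ _) hq
  have hqA : 2 * A ≤ q := by
    refine (Nat.le_ceil _).trans ?_
    exact_mod_cast le_trans (le_max_right _ _) hq
  have hq' : (2 : ℝ) ≤ q := by exact_mod_cast hq2
  have hq0 : (0 : ℝ) < q := by linarith
  obtain ⟨l, hl⟩ : ∃ l : ℕ, l = ⌈A * (q : ℝ) ^ 4⌉₊ := ⟨_, rfl⟩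
  have hl1 : A * (q : ℝ) ^ 4 ≤ l := by
    rw [hl]
    exact Nat.le_ceil _
  have hl2 : (l : ℝ) ≤ A * q ^ 4 + 1 := by
    rw [hl]
    exact (Nat.ceil_lt_add_one (by positivity)).le
  have hl0 : (0 : ℝ) < l := lt_of_lt_of_le (by positivity) hl1
  have hlp : 1 ≤ l := by exact_mod_cast hl0
  obtain ⟨m, hm⟩ : ∃ m : ℕ, m = (N + 1) / l - q ^ 4 := ⟨_, rfl⟩
  obtain ⟨hK, hnum⟩ := Kor2_numeric hc hA hq2 hqA hN hl1 hl2 hm
  obtain ⟨K, hKq⟩ : ∃ K : ℕ, K = q ^ 4 := ⟨_, rfl⟩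
  rw [← hKq] at hK hnum hm
  obtain ⟨θ, hθ⟩ : ∃ θ : ℝ, θ = c / (q : ℝ) ^ 3 := ⟨_, rfl⟩
  have hθ0 : 0 < θ := by
    rw [hθ]
    positivity
  rw [← hθ] at hnum
  obtain ⟨B, hB⟩ : ∃ B : Finset (ℕ × ℕ), B =
      (Finset.range K ×ˢ Finset.range m).image fun d : ℕ × ℕ => (d.1 + d.2, d.2) := ⟨_, rfl⟩
  have hinjB : Set.InjOn (fun d : ℕ × ℕ => (d.1 + d.2, d.2))
      (Finset.range K ×ˢ Finset.range m : Finset (ℕ × ℕ)) := by
    intro d _ d' _ hd
    simp only [Prod.mk.injEq] at hd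
    exact Prod.ext (by omega) (by omega)
  have hBcard : B.card = K * m := by
    rw [hB, Finset.card_image_of_injOn hinjB, Finset.card_product, Finset.card_range,
      Finset.card_range]
  have hsum : ∀ w : ℕ × ℕ → ℝ, (∀ c, 0 ≤ w c) → ∑ b ∈ B, Kor2_L l b w ≤ K * lpp w N N := by
    intro w hw
    rw [hB, Finset.sum_image hinjB, Finset.sum_product]
    have h1 : ∀ c ∈ Finset.range K, ∑ k ∈ Finset.range m, Kor2_L l (c + k, k) w ≤ lpp w N N := by
      intro c hc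
      rw [Finset.mem_range] at hc
      refine corridor hw N l m c hlp ?_
      have h5 : (c + m) ≤ (N + 1) / l := by omega
      exact (Nat.mul_le_mul_right l h5).trans (Nat.div_mul_le_self _ _)
    refine (Finset.sum_le_sum h1).trans ?_
    rw [Finset.sum_const, Finset.card_range, nsmul_eq_mul]
  have hmL : ∀ b, Measurable fun ω => Kor2_L l b (fun c => X c ω) := fun b =>
    (Kor2_measurable l b).comp (measurable_pi_lambda _ fun c => hX.meas c)
  have hmf : Measurable fun ω => -∑ b ∈ B, Kor2_L l b (fun c => X c ω) :=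
    (Finset.measurable_sum _ fun b _ => hmL b).neg
  obtain ⟨s, hs⟩ : ∃ s : ℝ, s = (4 - (8 + 16 * A + 4 / c) / q) * N := ⟨_, rfl⟩
  rw [← hs] at hnum ⊢
  have hsub : μ {ω | lpp (fun c => X c ω) N N ≤ s} ≤
      μ {ω | -(K * s) ≤ -∑ b ∈ B, Kor2_L l b (fun c => X c ω)} := by
    refine measure_mono_ae ?_
    filter_upwards [hX.nonneg] with ω hω hle
    have h1 : lpp (fun c => X c ω) N N ≤ s := hle
    show -(K * s) ≤ -∑ b ∈ B, Kor2_L l b (fun c => X c ω)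
    have h2 := hsum (fun c => X c ω) hω
    have h3 := mul_le_mul_of_nonneg_left h1 (Nat.cast_nonneg K)
    linarith
  refine hsub.trans ((chernoff hmf hθ0.le).trans ?_)
  have hexp : ∀ ω, ENNReal.ofReal (Real.exp (θ * -∑ b ∈ B, Kor2_L l b (fun c => X c ω))) =
      ∏ b ∈ B, ENNReal.ofReal (Real.exp (-(θ * Kor2_L l b (fun c => X c ω)))) := by
    intro ω
    rw [← ENNReal.ofReal_prod_of_nonneg (fun b _ => (Real.exp_pos _).le), ← Real.exp_sum]
    congr 2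
    rw [mul_neg, Finset.mul_sum, Finset.sum_neg_distrib]
  simp_rw [hexp]
  rw [Kor2_prod hX hlp]
  have hfac : ∀ b ∈ B, ∫⁻ ω, ENNReal.ofReal (Real.exp (-(θ * Kor2_L l b (fun c => X c ω)))) ∂μ ≤
      ENNReal.ofReal (Real.exp (Real.log 2 - θ * (4 - 8 * (1 / (q : ℝ))) * l)) := by
    intro b _
    have hinj : Function.Injective fun d : ℕ × ℕ => (b.1 * l + d.1, b.2 * l + d.2) := by
      intro d d' hd
      rw [Prod.mk.injEq] at hd
      exact Prod.ext (by omega) (by omega)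
    have h' := hX.precomp _ hinj
    have h1 := hblk (1 / q) (by positivity) (by
      rw [div_le_div_iff₀ hq0 two_pos]
      linarith) l (by
      rw [one_div, inv_pow, inv_mul_eq_div, le_div_iff₀ (by positivity)]
      exact hl1) θ hθ0 (by
      rw [hθ, one_div, inv_pow, div_eq_mul_inv]) Ω μ _ h'
    refine h1.trans (le_of_eq ?_)
    rw [Real.exp_sub, Real.exp_log two_pos, Real.exp_neg]
    rfl
  have hprod := Finset.prod_le_pow_card B _ _ hfac
  refine (mul_le_mul_right hprod _).trans ?_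
  rw [hBcard, ← ENNReal.ofReal_pow (Real.exp_pos _).le, ← Real.exp_nat_mul,
    ← ENNReal.ofReal_mul (Real.exp_pos _).le, ← Real.exp_add]
  refine ENNReal.ofReal_le_ofReal (Real.exp_le_exp.2 ?_)
  rw [mul_neg, neg_neg]
  exact hnum

end Pool.Agent.FX
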