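import Pool.Agent.FX.Stat
import Pool.Agent.FX.Det
import Pool.Agent.FY.Cher2

/-! # The law of large numbers (lower bound) for the square, with a rate -/

open MeasureTheory ProbabilityTheory

namespace Pool.Agent.FX

private lemma LLN2_union {Ω : Type} [MeasurableSpace Ω] {μ : Measure Ω} {A B : Set Ω} {p q : ℝ}
    (hp : 0 ≤ p) (hq : 0 ≤ q) (hA : μ A ≤ ENNReal.ofReal p) (hB : μ B ≤ ENNReal.ofReal q) :
    μ (A ∪ B) ≤ ENNReal.ofReal (p + q) := by
  rw [ENNReal.ofReal_add hp hq]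
  exact (measure_union_le A B).trans (add_le_add hA hB)

private lemma LLN2_meas_sum {Ω : Type} [MeasurableSpace Ω] {μ : Measure Ω} {X : ℕ × ℕ → Ω → ℝ}
    {r : ℕ × ℕ → ℝ} (h : ExpFam μ X r) (S : Finset (ℕ × ℕ)) :
    Measurable fun ω => ∑ c ∈ S, X c ω := by
  have h1 := h.meas
  fun_prop

private lemma LLN2_meas_lpp {Ω : Type} [MeasurableSpace Ω] {μ : Measure Ω} {X : ℕ × ℕ → Ω → ℝ}
    {r : ℕ × ℕ → ℝ} (h : ExpFam μ X r) (i j : ℕ) :
    Measurable fun ω => lpp (fun c => X c ω) i j :=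
  (measurable_lpp i j).comp (measurable_pi_lambda _ h.meas)

private lemma LLN2_mgf {Ω : Type} [MeasurableSpace Ω] {μ : Measure Ω} {X : ℕ × ℕ → Ω → ℝ}
    {r : ℕ × ℕ → ℝ} (h : ExpFam μ X r) {l θ : ℝ} (hl : 0 < l) (hθ : θ < l) (S : Finset (ℕ × ℕ))
    (hS : ∀ c ∈ S, r c = l) :
    ∫⁻ ω, ENNReal.ofReal (Real.exp (θ * ∑ c ∈ S, X c ω)) ∂μ =
      ENNReal.ofReal ((l / (l - θ)) ^ S.card) := by
  have h1 : 0 ≤ l / (l - θ) := div_nonneg hl.le (sub_pos.2 hθ).le
  rw [h.sum_mgf S θ fun c hc => by rw [hS c hc]; exact hθ,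
    Finset.prod_congr rfl fun c hc => by rw [hS c hc], Finset.prod_const, ENNReal.ofReal_pow h1]

private lemma LLN2_sum_up {l η : ℝ} (hl : 0 < l) (hη : 0 < η) (h1 : η * l ≤ 1) (m : ℕ)
    {Ω : Type} [MeasurableSpace Ω] {μ : Measure Ω} {X : ℕ × ℕ → Ω → ℝ} {r : ℕ × ℕ → ℝ}
    (hX : ExpFam μ X r) (S : Finset (ℕ × ℕ)) (hS : ∀ c ∈ S, r c = l) (hc : S.card ≤ m + 2) :
    μ {ω | (1 / l + η) * m ≤ ∑ c ∈ S, X c ω} ≤
      ENNReal.ofReal (4 * Real.exp (-(η ^ 2 * l ^ 2 * m / 4))) := by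
  refine tail_up2 hl hη h1 m (LLN2_meas_sum hX S) fun θ h0 h1 => ?_
  rw [LLN2_mgf hX hl h1 S hS]
  refine ENNReal.ofReal_le_ofReal (pow_le_pow_right₀ ?_ hc)
  rw [one_le_div (by linarith)]
  linarith

private lemma LLN2_sum_dn {l η : ℝ} (hl : 0 < l) (hη : 0 < η) (m : ℕ)
    {Ω : Type} [MeasurableSpace Ω] {μ : Measure Ω} {X : ℕ × ℕ → Ω → ℝ} {r : ℕ × ℕ → ℝ}
    (hX : ExpFam μ X r) (S : Finset (ℕ × ℕ)) (hS : ∀ c ∈ S, r c = l) (hc : m ≤ S.card) :
    μ {ω | ∑ c ∈ S, X c ω ≤ (1 / l - η) * m} ≤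
      ENNReal.ofReal (Real.exp (-(η ^ 2 * l ^ 2 * m / 2))) := by
  refine tail_dn2 hl hη m (LLN2_meas_sum hX S) fun θ h0 => ?_
  have h1 := LLN2_mgf hX hl (show -θ < l by linarith) S hS
  rw [sub_neg_eq_add] at h1
  have h2 : ∀ ω, -(θ * ∑ c ∈ S, X c ω) = -θ * ∑ c ∈ S, X c ω := fun ω => by ring
  simp_rw [h2]
  rw [h1]
  refine ENNReal.ofReal_le_ofReal (pow_le_pow_of_le_one (by positivity) ?_ hc)
  rw [div_le_one (by linarith)]
  linarith

private lemma LLN2_col (w : ℕ × ℕ → ℝ) (j : ℕ) :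
    lpp w 0 j = ∑ c ∈ (Finset.range (j + 1)).image (Prod.mk 0), w c := by
  rw [lpp_zero_left, Finset.sum_image]
  intro x _ y _ h
  exact congrArg Prod.snd h

private lemma LLN2_col_card (j : ℕ) :
    ((Finset.range (j + 1)).image (Prod.mk 0 : ℕ → ℕ × ℕ)).card = j + 1 := by
  rw [Finset.card_image_of_injective _ (fun x y h => congrArg Prod.snd h), Finset.card_range]

private lemma LLN2_stat_up {a b η p : ℝ} (ha : 0 < a) (hb : 0 < b) (hab : a + b = 1) (hη : 0 < η)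
    (h1 : η ≤ 1) (m : ℕ) (hp0 : 0 ≤ p) (hpa : 4 * Real.exp (-(η ^ 2 * a ^ 2 * m / 4)) ≤ p)
    (hpb : 4 * Real.exp (-(η ^ 2 * b ^ 2 * m / 4)) ≤ p)
    {Ω : Type} [MeasurableSpace Ω] {μ : Measure Ω} {X : ℕ × ℕ → Ω → ℝ}
    (hX : ExpFam μ X (statRate a b)) :
    μ {ω | (1 / a + 1 / b + 2 * η) * m ≤ lpp (fun c => X c ω) (m + 1) (m + 1)} ≤
        ENNReal.ofReal (p + p) := by
  have e1 := (LLN2_sum_up ha hη (by nlinarith) m hX
    ((Finset.range (m + 1 + 1)).image (Prod.mk 0)) (fun c hc => by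
      obtain ⟨j, _, rfl⟩ := Finset.mem_image.1 hc
      exact if_pos rfl) (by rw [LLN2_col_card])).trans (ENNReal.ofReal_le_ofReal hpa)
  have e2 := (tail_up2 hb hη (by nlinarith) m (μ := μ)
    (f := fun ω => lpp (fun c => X c ω) (m + 1) (m + 1) - lpp (fun c => X c ω) 0 (m + 1))
    ((LLN2_meas_lpp hX _ _).sub (LLN2_meas_lpp hX _ _)) (fun θ h0 h1 => by
      rw [stat_mgf ha hb hab hX (m + 1) (m + 1) h1]
      refine ENNReal.ofReal_le_ofReal (pow_le_pow_right₀ ?_ (by omega))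
      rw [one_le_div (by linarith)]
      linarith)).trans (ENNReal.ofReal_le_ofReal hpb)
  refine (measure_mono ?_).trans (LLN2_union hp0 hp0 e1 e2)
  intro ω hω
  by_contra hn
  have n1 : ∑ c ∈ (Finset.range (m + 1 + 1)).image (Prod.mk 0), X c ω < (1 / a + η) * m :=
    not_le.1 fun h => hn (Or.inl h)
  have n2 : lpp (fun c => X c ω) (m + 1) (m + 1) - lpp (fun c => X c ω) 0 (m + 1) <
      (1 / b + η) * m := not_le.1 fun h => hn (Or.inr h)
  have n3 : (1 / a + 1 / b + 2 * η) * m ≤ lpp (fun c => X c ω) (m + 1) (m + 1) := hω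
  rw [← LLN2_col (fun c => X c ω)] at n1
  linarith

private lemma LLN2_stat_dn {a b η p : ℝ} (ha : 0 < a) (hb : 0 < b) (hab : a + b = 1) (hη : 0 < η)
    (m : ℕ) (hp0 : 0 ≤ p) (hpa : Real.exp (-(η ^ 2 * a ^ 2 * m / 2)) ≤ p)
    (hpb : Real.exp (-(η ^ 2 * b ^ 2 * m / 2)) ≤ p)
    {Ω : Type} [MeasurableSpace Ω] {μ : Measure Ω} {X : ℕ × ℕ → Ω → ℝ}
    (hX : ExpFam μ X (statRate a b)) :
    μ {ω | lpp (fun c => X c ω) (m + 1) (m + 1) ≤ (1 / a + 1 / b - 2 * η) * m} ≤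
        ENNReal.ofReal (p + p) := by
  have e1 := (LLN2_sum_dn ha hη m hX
    ((Finset.range (m + 1 + 1)).image (Prod.mk 0)) (fun c hc => by
      obtain ⟨j, _, rfl⟩ := Finset.mem_image.1 hc
      exact if_pos rfl) (by rw [LLN2_col_card]; omega)).trans (ENNReal.ofReal_le_ofReal hpa)
  have e2 := (tail_dn2 hb hη m (μ := μ)
    (f := fun ω => lpp (fun c => X c ω) (m + 1) (m + 1) - lpp (fun c => X c ω) 0 (m + 1))
    ((LLN2_meas_lpp hX _ _).sub (LLN2_meas_lpp hX _ _)) (fun θ h0 => by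
      have h3 := stat_mgf ha hb hab hX (m + 1) (m + 1) (show -θ < b by linarith)
      rw [sub_neg_eq_add] at h3
      have h4 : ∀ ω, -(θ * (lpp (fun c => X c ω) (m + 1) (m + 1) -
          lpp (fun c => X c ω) 0 (m + 1))) = -θ * (lpp (fun c => X c ω) (m + 1) (m + 1) -
          lpp (fun c => X c ω) 0 (m + 1)) := fun ω => by ring
      simp_rw [h4]
      rw [h3]
      refine ENNReal.ofReal_le_ofReal (pow_le_pow_of_le_one (by positivity) ?_ (by omega))
      rw [div_le_one (by linarith)]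
      linarith)).trans (ENNReal.ofReal_le_ofReal hpb)
  refine (measure_mono ?_).trans (LLN2_union hp0 hp0 e1 e2)
  intro ω hω
  by_contra hn
  have n1 : (1 / a - η) * m < ∑ c ∈ (Finset.range (m + 1 + 1)).image (Prod.mk 0), X c ω :=
    not_le.1 fun h => hn (Or.inl h)
  have n2 : (1 / b - η) * m < lpp (fun c => X c ω) (m + 1) (m + 1) -
      lpp (fun c => X c ω) 0 (m + 1) := not_le.1 fun h => hn (Or.inr h)
  have n3 : lpp (fun c => X c ω) (m + 1) (m + 1) ≤ (1 / a + 1 / b - 2 * η) * m := hω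
  rw [← LLN2_col (fun c => X c ω)] at n1
  linarith

private lemma LLN2_zero {t : ℝ} {Ω : Type} [MeasurableSpace Ω] {μ : Measure Ω}
    {X : ℕ × ℕ → Ω → ℝ} {r : ℕ × ℕ → ℝ} (hX : ExpFam μ X r) (hr : r (0, 0) = 1 / 2) :
    μ {ω | t ≤ X (0, 0) ω} ≤ ENNReal.ofReal (2 * Real.exp (-(t / 4))) := by
  have h1 := chernoff (μ := μ) (hX.meas (0, 0)) (θ := 1 / 4) (s := t) (by norm_num)
  have h2 := LLN2_mgf hX (l := 1 / 2) (θ := 1 / 4) (by norm_num) (by norm_num) {(0, 0)}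
    (fun c hc => by rw [Finset.mem_singleton.1 hc, hr])
  simp only [Finset.sum_singleton, Finset.card_singleton] at h2
  rw [h2, ← ENNReal.ofReal_mul (Real.exp_pos _).le] at h1
  refine h1.trans (ENNReal.ofReal_le_ofReal (le_of_eq ?_))
  rw [show -(1 / 4 * t) = -(t / 4) by ring]
  norm_num
  ring

private lemma LLN2_num {d η s : ℝ} (hd : 0 < d) (hd' : d ≤ 1 / 2) (hs : s = d / 8)
    (hη : η = d ^ 2 / 100) :
    (1 / (1 / 2 + s) + 1 / (1 / 2 - s)) + 5 * η ≤ 4 + 2 * s / (1 - 2 * s) * (7 / 4) * d := by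
  have h1 : 1 / (1 / 2 + s) + 1 / (1 / 2 - s) ≤ 4 + 13 / 50 * d ^ 2 := by
    have e1 : 0 < 1 / 2 + s := by linarith
    have e2 : 0 < 1 / 2 - s := by linarith
    rw [div_add_div _ _ e1.ne' e2.ne', div_le_iff₀ (mul_pos e1 e2)]
    subst hs
    nlinarith [mul_pos hd hd, mul_pos (mul_pos hd hd) (mul_pos hd hd),
      mul_le_mul hd' hd' hd.le (by norm_num)]
  have h2 : d / 4 ≤ 2 * s / (1 - 2 * s) := by
    rw [le_div_iff₀ (by linarith)]
    subst hs
    nlinarith [mul_pos hd hd]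
  have h5 := mul_le_mul_of_nonneg_right h2 (by positivity : 0 ≤ 7 / 4 * d)
  have h6 : d / 4 * (7 / 4 * d) = 7 / 16 * d ^ 2 := by ring
  rw [h6] at h5
  rw [mul_assoc (2 * s / (1 - 2 * s)), hη]
  nlinarith [sq_nonneg d]

/-- the arithmetic of the good event -/
private lemma LLN2_end {d s η k m L P M I H V Z : ℝ} (hd0 : 0 < d)
    (hd1 : d ≤ 1 / 2) (hs0 : 0 < s) (hs1 : s < 1 / 2) (hη0 : 0 < η)
    (hη1 : η ≤ d)
    (hnum : (1 / (1 / 2 + s) + 1 / (1 / 2 - s)) + 5 * η ≤ 4 + 2 * s / (1 - 2 * s) * (7 / 4) * d)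
    (hk1 : d * m ≤ k) (hk2 : k ≤ d * m + 1) (hm2 : 7 / 2 ≤ d * m) (hm3 : 1 ≤ m)
    (n1 : (2 + 2 - 2 * η) * m < L)
    (n2 : P < (1 / (1 / 2 + s) + 1 / (1 / 2 - s) + 2 * η) * m)
    (n3 : M < (1 / (1 / 2 + s) + 1 / (1 / 2 - s) + 2 * η) * m) (n4 : Z < η * m)
    (n5 : H < (2 + 1 / 4) * k) (n6 : V < (2 + 1 / 4) * k) (n7 : (2 - 1 / 4) * k < H)
    (n8 : (2 - 1 / 4) * k < V)
    (hlt : I < (4 - 8 * d) * (m + 1))
    (hex : L ≤ Z + max (I + max H V)
      (max (P - 2 * s / (1 - 2 * s) * H) (M - 2 * s / (1 - 2 * s) * V))) : False := by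
  have hT : 0 < 2 * s / (1 - 2 * s) := div_pos (by linarith) (by linarith)
  have hm0 : 0 < m := by linarith
  have e1 := mul_le_mul_of_nonneg_right hnum hm0.le
  have e3 : 2 * s / (1 - 2 * s) * (7 / 4 * (d * m)) ≤ 2 * s / (1 - 2 * s) * H :=
    mul_le_mul_of_nonneg_left (by linarith) hT.le
  have e4 : 2 * s / (1 - 2 * s) * (7 / 4 * (d * m)) ≤ 2 * s / (1 - 2 * s) * V :=
    mul_le_mul_of_nonneg_left (by linarith) hT.le
  have e5 : 2 * s / (1 - 2 * s) * (7 / 4 * (d * m)) = 2 * s / (1 - 2 * s) * (7 / 4) * d * m := by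
    ring
  rw [e5] at e3 e4
  have h1 : L - Z ≤ max (I + max H V)
      (max (P - 2 * s / (1 - 2 * s) * H) (M - 2 * s / (1 - 2 * s) * V)) := by linarith
  rcases le_max_iff.1 h1 with h2 | h2
  · have h3 : max H V < (2 + 1 / 4) * k := max_lt n5 n6
    have h7 := mul_le_mul_of_nonneg_right hη1 hm0.le
    nlinarith
  · rcases le_max_iff.1 h2 with h3 | h3
    · nlinarith
    · nlinarith

/-- Rost's lower bound with a rate: the last passage time of the square of side `l` is at least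
`(4 - 8 δ) l` up to an exponentially small probability. -/
lemma lln2 : ∃ c C : ℝ, 0 < c ∧ 1 ≤ C ∧ ∀ δ : ℝ, 0 < δ → δ ≤ 1 / 2 → ∀ l : ℕ, 1 ≤ l →
    ∀ (Ω : Type) [MeasurableSpace Ω] (μ : Measure Ω) (X : ℕ × ℕ → Ω → ℝ),
      ExpFam μ X (fun _ => 1) →
      μ {ω | lpp (fun c => X c ω) (l - 1) (l - 1) < (4 - 8 * δ) * l} ≤
        ENNReal.ofReal (C * Real.exp (-(c * δ ^ 4 * l))) := by
  refine ⟨1 / 250000, 88, by norm_num, by norm_num, fun d hd0 hd1 l hl Ω _ μ X hX => ?_⟩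
  obtain ⟨m, rfl⟩ : ∃ m, l = m + 1 := ⟨l - 1, by omega⟩
  rw [Nat.add_sub_cancel]
  have hd4 : d ^ 4 ≤ d := by
    have h1 : d ^ 4 ≤ d ^ 1 := pow_le_pow_of_le_one hd0.le (by linarith) (by norm_num)
    rwa [pow_one] at h1
  have hd42 : d ^ 4 ≤ d ^ 2 := pow_le_pow_of_le_one hd0.le (by linarith) (by norm_num)
  have hprob : IsProbabilityMeasure μ := hX.prob
  by_cases hbig : 7 / 2 ≤ d * m
  swap
  · -- few vertices: the right side is at least one
    rw [not_le] at hbig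
    have h1 : d ^ 4 * ((m + 1 : ℕ) : ℝ) ≤ 4 := by
      push_cast
      have h2 : d ^ 4 * m ≤ d * m := mul_le_mul_of_nonneg_right hd4 (Nat.cast_nonneg _)
      nlinarith
    have h2 : Real.exp (-1) ≤ Real.exp (-(1 / 250000 * d ^ 4 * ((m + 1 : ℕ) : ℝ))) :=
      Real.exp_le_exp.2 (by nlinarith)
    have h3 : 1 / 3 ≤ Real.exp (-1) := by
      rw [Real.exp_neg, one_div]
      apply inv_anti₀ (Real.exp_pos _)
      have := Real.exp_one_lt_d9
      linarith
    calc μ _ ≤ 1 := prob_le_one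
      _ = ENNReal.ofReal 1 := ENNReal.ofReal_one.symm
      _ ≤ _ := ENNReal.ofReal_le_ofReal (by linarith)
  obtain ⟨s, hs⟩ : ∃ s, s = d / 8 := ⟨_, rfl⟩
  obtain ⟨η, hη⟩ : ∃ η, η = d ^ 2 / 100 := ⟨_, rfl⟩
  obtain ⟨q, hq⟩ : ∃ q, q = 4 * Real.exp (-(d ^ 4 * m / 250000)) := ⟨_, rfl⟩
  have hs0 : 0 < s := by rw [hs]; positivity
  have hs1 : s < 1 / 2 := by rw [hs]; linarith
  have hη0 : 0 < η := by rw [hη]; positivity
  have hq0 : 0 < q := by rw [hq]; positivity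
  have hnum := LLN2_num hd0 hd1 hs hη
  have hη1 : η ≤ d := by
    rw [hη]
    nlinarith
  have hη2 : η ≤ 1 := by linarith
  have ha : 0 < 1 / 2 + s := by linarith
  have hb : 0 < 1 / 2 - s := by linarith
  have hmn : (0 : ℝ) ≤ m := Nat.cast_nonneg _
  have hm3 : (1 : ℝ) ≤ m := by nlinarith
  have hexp : ∀ {C y : ℝ}, 0 ≤ C → C ≤ 4 → d ^ 4 * m / 250000 ≤ y → C * Real.exp (-y) ≤ q := by
    intro C y hC0 hC hy
    rw [hq]
    exact mul_le_mul hC (Real.exp_le_exp.2 (by linarith)) (Real.exp_pos _).le (by norm_num)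
  have hη4 : η ^ 2 = d ^ 4 / 10000 := by rw [hη]; ring
  have hdm0 : 0 ≤ d ^ 4 * (m : ℝ) := by positivity
  have hup : ∀ {a : ℝ}, 7 / 16 ≤ a → 4 * Real.exp (-(η ^ 2 * a ^ 2 * m / 4)) ≤ q := by
    intro a ha
    refine hexp (by norm_num) le_rfl ?_
    have h1 : 49 / 256 ≤ a ^ 2 := by nlinarith
    have h2 : η ^ 2 * a ^ 2 * m / 4 = a ^ 2 * (d ^ 4 * m) / 40000 := by rw [hη4]; ring
    rw [h2]
    nlinarith
  have hdn : Real.exp (-(η ^ 2 * (1 / 2) ^ 2 * m / 2)) ≤ q := by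
    have h1 := hexp (C := 1) (y := η ^ 2 * (1 / 2) ^ 2 * m / 2) (by norm_num) (by norm_num)
      (by rw [hη4]; linarith)
    rwa [one_mul] at h1
  obtain ⟨k, hk⟩ : ∃ k, k = ⌈d * (m : ℝ)⌉₊ := ⟨_, rfl⟩
  have hk1 : d * m ≤ k := by
    rw [hk]
    exact Nat.le_ceil _
  have hk2 : (k : ℝ) ≤ d * m + 1 := by
    rw [hk]
    exact (Nat.ceil_lt_add_one (by positivity)).le
  have hdk : d ^ 4 * m ≤ k := by
    have h2 : d ^ 4 * m ≤ d * m := mul_le_mul_of_nonneg_right hd4 hmn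
    linarith
  have hkup : 4 * Real.exp (-((1 / 4) ^ 2 * (1 / 2) ^ 2 * (k : ℝ) / 4)) ≤ q :=
    hexp (by norm_num) le_rfl (by linarith)
  have hkdn : Real.exp (-((1 / 4) ^ 2 * (1 / 2) ^ 2 * (k : ℝ) / 2)) ≤ q := by
    have h1 := hexp (C := 1) (y := (1 / 4) ^ 2 * (1 / 2) ^ 2 * (k : ℝ) / 2) (by norm_num)
      (by norm_num) (by linarith)
    rwa [one_mul] at h1
  have hz : 2 * Real.exp (-(η * m / 4)) ≤ q := by
    refine hexp (by norm_num) (by norm_num) ?_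
    have h1 : d ^ 4 * (m : ℝ) ≤ d ^ 2 * m := mul_le_mul_of_nonneg_right hd42 hmn
    have h2 : η * m / 4 = d ^ 2 * m / 400 := by rw [hη]; ring
    rw [h2]
    linarith
  obtain ⟨ν, hν⟩ := exists_expFam (statRate (1 / 2) (1 / 2)) fun c => by
    unfold statRate
    split_ifs <;> norm_num
  -- the interior
  have hint : ExpFam ν (fun c ω => ω (c.1 + 1, c.2 + 1)) (fun _ => 1) := by
    have e1 := hν.precomp (fun c => (c.1 + 1, c.2 + 1)) (fun x y h => by
      have e2 := congrArg Prod.fst h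
      have e3 := congrArg Prod.snd h
      exact Prod.ext (Nat.succ_injective e2) (Nat.succ_injective e3))
    have e4 : (fun c : ℕ × ℕ => statRate (1 / 2) (1 / 2) (c.1 + 1, c.2 + 1)) = fun _ => 1 := by
      funext c
      unfold statRate
      rw [if_neg (Nat.succ_ne_zero _), if_neg (Nat.succ_ne_zero _)]
    rw [e4] at e1
    exact e1
  have hA : MeasurableSet {w : ℕ × ℕ → ℝ | lpp w m m < (4 - 8 * d) * ((m + 1 : ℕ) : ℝ)} :=
    measurableSet_lt (measurable_lpp m m) measurable_const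
  have hlaw := hX.law_eq hint hA
  have hgoal : μ {ω | lpp (fun c => X c ω) m m < (4 - 8 * d) * ((m + 1 : ℕ) : ℝ)} =
      ν {ω | lpp (fun c : ℕ × ℕ => ω (c.1 + 1, c.2 + 1)) m m < (4 - 8 * d) * ((m + 1 : ℕ) : ℝ)} := hlaw
  rw [hgoal]
  -- the scaled families
  have hP : ExpFam ν (fun c ω => bdP s c * ω c) (statRate (1 / 2 + s) (1 / 2 - s)) := by
    have e1 := hν.scale (bdP s) fun c => by
      unfold bdP
      split_ifs
      · exact div_pos one_pos (by linarith)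
      · exact div_pos one_pos (by linarith)
      · exact one_pos
    have e4 : (fun c : ℕ × ℕ => statRate (1 / 2) (1 / 2) c / bdP s c) =
        statRate (1 / 2 + s) (1 / 2 - s) := by
      funext c
      unfold statRate bdP
      split_ifs
      · rw [div_div_eq_mul_div, div_one]
        ring
      · rw [div_div_eq_mul_div, div_one]
        ring
      · rw [div_one]
    rw [e4] at e1
    exact e1
  have hM : ExpFam ν (fun c ω => bdM s c * ω c) (statRate (1 / 2 - s) (1 / 2 + s)) := by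
    have e1 := hν.scale (bdM s) fun c => by
      unfold bdM
      split_ifs
      · exact div_pos one_pos (by linarith)
      · exact div_pos one_pos (by linarith)
      · exact one_pos
    have e4 : (fun c : ℕ × ℕ => statRate (1 / 2) (1 / 2) c / bdM s c) =
        statRate (1 / 2 - s) (1 / 2 + s) := by
      funext c
      unfold statRate bdM
      split_ifs
      · rw [div_div_eq_mul_div, div_one]
        ring
      · rw [div_div_eq_mul_div, div_one]
        ring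
      · rw [div_one]
    rw [e4] at e1
    exact e1
  -- the bad events
  have b1 := LLN2_stat_dn (a := 1 / 2) (b := 1 / 2) (by norm_num) (by norm_num) (by norm_num) hη0
    m hq0.le hdn hdn hν
  have b2 := LLN2_stat_up ha hb (by ring) hη0 hη2 m hq0.le (hup (by rw [hs]; linarith))
    (hup (by rw [hs]; linarith)) hP
  have b3 := LLN2_stat_up hb ha (by ring) hη0 hη2 m hq0.le (hup (by rw [hs]; linarith))
    (hup (by rw [hs]; linarith)) hM
  have b4 := (LLN2_zero (t := η * m) hν (if_pos rfl)).trans (ENNReal.ofReal_le_ofReal hz)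
  obtain ⟨SH, hSH⟩ : ∃ S : Finset (ℕ × ℕ), S = (Finset.Icc 1 k).image fun i => (i, 0) := ⟨_, rfl⟩
  obtain ⟨SV, hSV⟩ : ∃ S : Finset (ℕ × ℕ), S = (Finset.Icc 1 k).image fun j => (0, j) := ⟨_, rfl⟩
  have iH : Function.Injective fun i : ℕ => (i, 0) := fun x y h => congrArg Prod.fst h
  have iV : Function.Injective fun j : ℕ => (0, j) := fun x y h => congrArg Prod.snd h
  have cH : SH.card = k := by
    rw [hSH, Finset.card_image_of_injective _ iH, Nat.card_Icc]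
    omega
  have cV : SV.card = k := by
    rw [hSV, Finset.card_image_of_injective _ iV, Nat.card_Icc]
    omega
  have rH : ∀ c ∈ SH, statRate (1 / 2) (1 / 2) c = 1 / 2 := by
    intro c hc
    rw [hSH] at hc
    obtain ⟨i, hi, rfl⟩ := Finset.mem_image.1 hc
    unfold statRate
    split_ifs <;> first | rfl | simp_all
  have rV : ∀ c ∈ SV, statRate (1 / 2) (1 / 2) c = 1 / 2 := by
    intro c hc
    rw [hSV] at hc
    obtain ⟨j, hj, rfl⟩ := Finset.mem_image.1 hc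
    exact if_pos rfl
  have sH : ∀ w : ℕ × ℕ → ℝ, ∑ c ∈ SH, w c = ∑ i ∈ Finset.Icc 1 k, w (i, 0) := by
    intro w
    rw [hSH, Finset.sum_image fun x _ y _ h => iH h]
  have sV : ∀ w : ℕ × ℕ → ℝ, ∑ c ∈ SV, w c = ∑ j ∈ Finset.Icc 1 k, w (0, j) := by
    intro w
    rw [hSV, Finset.sum_image fun x _ y _ h => iV h]
  have b5 := (LLN2_sum_up (l := 1 / 2) (η := 1 / 4) (by norm_num) (by norm_num) (by norm_num) k hν
    SH rH (by omega)).trans (ENNReal.ofReal_le_ofReal hkup)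
  have b6 := (LLN2_sum_up (l := 1 / 2) (η := 1 / 4) (by norm_num) (by norm_num) (by norm_num) k hν
    SV rV (by omega)).trans (ENNReal.ofReal_le_ofReal hkup)
  have b7 := (LLN2_sum_dn (l := 1 / 2) (η := 1 / 4) (by norm_num) (by norm_num) k hν
    SH rH cH.ge).trans (ENNReal.ofReal_le_ofReal hkdn)
  have b8 := (LLN2_sum_dn (l := 1 / 2) (η := 1 / 4) (by norm_num) (by norm_num) k hν
    SV rV cV.ge).trans (ENNReal.ofReal_le_ofReal hkdn)
  have hb := LLN2_union (by positivity) (by positivity) b1 (LLN2_union (by positivity)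
    (by positivity) b2 (LLN2_union (by positivity) (by positivity) b3 (LLN2_union (by positivity)
    (by positivity) b4 (LLN2_union (by positivity) (by positivity) b5 (LLN2_union (by positivity)
    (by positivity) b6 (LLN2_union (by positivity) (by positivity) b7 b8))))))
  have hsum : q + q + (q + q + (q + q + (q + (q + (q + (q + q)))))) ≤
      88 * Real.exp (-(1 / 250000 * d ^ 4 * ((m + 1 : ℕ) : ℝ))) := by
    have h1 : Real.exp (-(d ^ 4 * m / 250000)) =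
        Real.exp (-(1 / 250000 * d ^ 4 * ((m + 1 : ℕ) : ℝ))) * Real.exp (d ^ 4 / 250000) := by
      rw [← Real.exp_add]
      congr 1
      push_cast
      ring
    have h2 : Real.exp (d ^ 4 / 250000) ≤ 2 := by
      have h3 : Real.exp (d ^ 4 / 250000) ≤ Real.exp (1 / 2) :=
        Real.exp_le_exp.2 (by linarith)
      have h4 : Real.exp (1 / 2) ^ 2 ≤ 2 ^ 2 := by
        rw [← Real.exp_nat_mul]
        have := Real.exp_one_lt_d9
        norm_num
        linarith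
      have h5 := (sq_le_sq₀ (Real.exp_pos _).le (by norm_num)).1 h4
      linarith
    have h3 := Real.exp_pos (-(1 / 250000 * d ^ 4 * ((m + 1 : ℕ) : ℝ)))
    rw [hq, h1]
    nlinarith
  replace hb := hb.trans (ENNReal.ofReal_le_ofReal hsum)
  refine (measure_mono_ae ?_).trans hb
  filter_upwards [hν.nonneg] with ω hω hlt
  by_contra hn
  have hlt' : lpp (fun c : ℕ × ℕ => ω (c.1 + 1, c.2 + 1)) m m < (4 - 8 * d) * ((m + 1 : ℕ) : ℝ) := hlt
  have n1 : (1 / (1 / 2) + 1 / (1 / 2) - 2 * η) * m < lpp (fun c => ω c) (m + 1) (m + 1) :=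
    not_le.1 fun h => hn (Or.inl h)
  have n2 : lpp (fun c => bdP s c * ω c) (m + 1) (m + 1) <
      (1 / (1 / 2 + s) + 1 / (1 / 2 - s) + 2 * η) * m :=
    not_le.1 fun h => hn (Or.inr (Or.inl h))
  have n3 : lpp (fun c => bdM s c * ω c) (m + 1) (m + 1) <
      (1 / (1 / 2 - s) + 1 / (1 / 2 + s) + 2 * η) * m :=
    not_le.1 fun h => hn (Or.inr (Or.inr (Or.inl h)))
  have n4 : ω (0, 0) < η * m :=
    not_le.1 fun h => hn (Or.inr (Or.inr (Or.inr (Or.inl h))))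
  have n5 : ∑ c ∈ SH, ω c < (1 / (1 / 2) + 1 / 4) * k :=
    not_le.1 fun h => hn (Or.inr (Or.inr (Or.inr (Or.inr (Or.inl h)))))
  have n6 : ∑ c ∈ SV, ω c < (1 / (1 / 2) + 1 / 4) * k :=
    not_le.1 fun h => hn (Or.inr (Or.inr (Or.inr (Or.inr (Or.inr (Or.inl h))))))
  have n7 : (1 / (1 / 2) - 1 / 4) * k < ∑ c ∈ SH, ω c :=
    not_le.1 fun h => hn (Or.inr (Or.inr (Or.inr (Or.inr (Or.inr (Or.inr (Or.inl h)))))))
  have n8 : (1 / (1 / 2) - 1 / 4) * k < ∑ c ∈ SV, ω c :=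
    not_le.1 fun h => hn (Or.inr (Or.inr (Or.inr (Or.inr (Or.inr (Or.inr (Or.inr h)))))))
  rw [sH] at n5 n7
  rw [sV] at n6 n8
  have hex := exit_le hω hs0 hs1 k m
  rw [show (fun c => ω c) = ω from rfl] at n1
  rw [one_div_one_div] at n1 n5 n6 n7 n8
  exact LLN2_end hd0 hd1 hs0 hs1 hη0 hη1 hnum hk1 hk2 hbig hm3 n1 n2
    (by rw [add_comm (1 / (1 / 2 + s))]; exact n3) n4 n5 n6 n7 n8
    (by push_cast at hlt'; exact hlt') hex

end Pool.Agent.FX
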